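import Pool.Agent.Q178.HNS.Space

set_option autoImplicit false
set_option linter.unusedSectionVars false

/-!
Homogeneity of the manifold.
-/

namespace Q178.HNS

open Set Filter Topology Q178.HNH

variable {G L X : Type} [Group G] [Group L] [TopologicalSpace X] [MulAction G X] {S : Sys G L X}

/-! ### Translations -/

/-- Translation of the height. -/
noncomputable def transl (t : ℝ) (z : Pt S) : Pt S where
  s := z.s + t
  A := fun a => z.A (a - t)
  x := z.x
  fin := by
    have h : Function.mulSupport (fun a => z.A (a - t)) ⊆
        (fun a => a + t) '' Function.mulSupport z.A := by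
      intro a ha
      exact ⟨a - t, ha, by ring⟩
    exact (z.fin.image _).subset h
  le := fun a ha => z.le _ (by linarith)

lemma transl_transl (t t' : ℝ) (z : Pt S) : transl t (transl t' z) = transl (t' + t) z := by
  apply Pt.ext'
  · exact add_assoc _ _ _
  · funext a
    change z.A (a - t - t') = z.A (a - (t' + t))
    congr 1
    ring
  · rfl

lemma transl_zero (z : Pt S) : transl 0 z = z := by
  apply Pt.ext'
  · exact add_zero _
  · funext a
    change z.A (a - 0) = z.A a
    rw [sub_zero]
  · rfl

lemma transl_chart (t : ℝ) (z : Pt S) (p : ℝ × X) :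
    transl t (chart z p) = chart (transl t z) (p.1 + t, p.2) := by
  apply Pt.ext'
  · rfl
  · funext a
    change cut p.1 z.A (a - t) = cut (p.1 + t) (fun a => z.A (a - t)) a
    unfold cut
    by_cases h : p.1 + t ≤ a
    · rw [if_pos h, if_pos (by linarith)]
    · rw [if_neg h, if_neg (fun h' => h (by linarith))]
  · change S.ev (p.1 - z.s) (z.A z.s) • p.2 =
      S.ev (p.1 + t - (z.s + t)) (z.A (z.s + t - t)) • p.2
    have h1 : p.1 + t - (z.s + t) = p.1 - z.s := by ring
    have h2 : z.s + t - t = z.s := by ring
    rw [h1, h2]

lemma continuous_transl (t : ℝ) : Continuous (transl t : Pt S → Pt S) := by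
  rw [continuous_iff_continuousAt]
  intro z
  apply continuousAt_of z (fun p => (p.1 + t, p.2))
  · exact Continuous.tendsto (by fun_prop) (z.s, z.x)
  · exact Eventually.of_forall fun p => transl_chart t z p

/-- Translation of the height as a homeomorphism. -/
noncomputable def translH (t : ℝ) : Pt S ≃ₜ Pt S where
  toFun := transl t
  invFun := transl (-t)
  left_inv z := by rw [transl_transl, add_neg_cancel, transl_zero]
  right_inv z := by rw [transl_transl, neg_add_cancel, transl_zero]
  continuous_toFun := continuous_transl t
  continuous_invFun := continuous_transl (-t)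

/-! ### Constants -/

/-- The action of the constants. -/
noncomputable def rot (c : G) (z : Pt S) : Pt S where
  s := z.s
  A := fun a => S.conj c (z.A a)
  x := c • z.x
  fin := z.fin.subset fun a ha h => ha (by
    change S.conj c (z.A a) = 1
    rw [h, map_one])
  le := fun a ha => by rw [z.le a ha, map_one]

lemma rot_rot (c c' : G) (z : Pt S) : rot c (rot c' z) = rot (c * c') z := by
  apply Pt.ext'
  · rfl
  · funext a
    change S.conj c (S.conj c' (z.A a)) = S.conj (c * c') (z.A a)
    rw [map_mul]
    rfl
  · exact (mul_smul c c' z.x).symm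

lemma rot_one (z : Pt S) : rot 1 z = z := by
  apply Pt.ext'
  · rfl
  · funext a
    change S.conj 1 (z.A a) = z.A a
    rw [map_one]
    rfl
  · exact one_smul _ _

lemma cut_conj (c : G) (t : ℝ) (A : ℝ → L) :
    cut t (fun a => S.conj c (A a)) = fun a => S.conj c (cut t A a) := by
  funext a
  unfold cut
  split_ifs
  · rfl
  · rw [map_one]

lemma rot_chart (c : G) (z : Pt S) (p : ℝ × X) :
    rot c (chart z p) = chart (rot c z) (p.1, c • p.2) := by
  apply Pt.ext'
  · rfl
  · exact (cut_conj c p.1 z.A).symm
  · change c • S.ev (p.1 - z.s) (z.A z.s) • p.2 =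
      S.ev (p.1 - z.s) (S.conj c (z.A z.s)) • c • p.2
    rw [S.ev_conj, ← mul_smul, ← mul_smul]
    congr 1
    group

lemma continuous_rot (c : G) : Continuous (rot c : Pt S → Pt S) := by
  rw [continuous_iff_continuousAt]
  intro z
  apply continuousAt_of z (fun p => (p.1, c • p.2))
  · have h1 : Continuous fun x : X => c • x := S.cont_smul c
    exact Continuous.tendsto (f := fun p : ℝ × X => (p.1, c • p.2)) (by fun_prop) (z.s, z.x)
  · exact Eventually.of_forall fun p => rot_chart c z p

/-- The action of the constants as homeomorphisms. -/
noncomputable def rotH (c : G) : Pt S ≃ₜ Pt S where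
  toFun := rot c
  invFun := rot c⁻¹
  left_inv z := by rw [rot_rot, inv_mul_cancel, rot_one]
  right_inv z := by rw [rot_rot, mul_inv_cancel, rot_one]
  continuous_toFun := continuous_rot c
  continuous_invFun := continuous_rot c⁻¹

/-! ### The top -/

/-- The finite set of critical heights. -/
noncomputable def crit (z : Pt S) : Finset ℝ := insert z.s z.fin.toFinset

/-- The top of a point. -/
noncomputable def mx (z : Pt S) : ℝ := (crit z).max' (Finset.insert_nonempty _ _)

lemma le_mx (z : Pt S) : z.s ≤ mx z := Finset.le_max' _ _ (Finset.mem_insert_self _ _)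

lemma le_mx' {z : Pt S} {a : ℝ} (ha : z.A a ≠ 1) : a ≤ mx z :=
  Finset.le_max' _ _ (Finset.mem_insert_of_mem (z.fin.mem_toFinset.2 ha))

lemma eq_one_of_lt {z : Pt S} {a : ℝ} (ha : mx z < a) : z.A a = 1 := by
  by_contra h
  exact absurd (le_mx' h) (not_le.2 ha)

lemma mx_mem (z : Pt S) : mx z = z.s ∨ z.A (mx z) ≠ 1 := by
  rcases Finset.mem_insert.1 (Finset.max'_mem (crit z) (Finset.insert_nonempty _ _)) with h | h
  · exact Or.inl h
  · exact Or.inr (z.fin.mem_toFinset.1 h)

lemma mx_eq {z : Pt S} {m : ℝ} (h1 : z.s ≤ m) (h2 : ∀ a, m < a → z.A a = 1)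
    (h3 : m = z.s ∨ z.A m ≠ 1) : mx z = m := by
  apply le_antisymm
  · rcases mx_mem z with h | h
    · rw [h]
      exact h1
    · by_contra h4
      exact h (h2 _ (not_le.1 h4))
  · rcases h3 with h | h
    · rw [h]
      exact le_mx z
    · exact le_mx' h

lemma mx_rot (c : G) (z : Pt S) : mx (rot c z) = mx z := by
  apply mx_eq (z := rot c z) (le_mx z)
  · intro a ha
    change S.conj c (z.A a) = 1
    rw [eq_one_of_lt ha, map_one]
  · rcases mx_mem z with h | h
    · exact Or.inl h
    · right
      change S.conj c (z.A (mx z)) ≠ 1
      intro h1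
      apply h
      rwa [MulEquiv.map_eq_one_iff] at h1

/-! ### The swap -/

open Classical in
/-- Multiplication of the label at height `0`. -/
noncomputable def mulz (n : L) (A : ℝ → L) (a : ℝ) : L := if a = 0 then n * A a else A a

lemma mulz_zero (n : L) (A : ℝ → L) : mulz n A 0 = n * A 0 := if_pos rfl

lemma mulz_of_ne (n : L) (A : ℝ → L) {a : ℝ} (h : a ≠ 0) : mulz n A a = A a := if_neg h

lemma mulz_cut (n : L) {t : ℝ} (ht : t ≤ 0) (A : ℝ → L) : mulz n (cut t A) = cut t (mulz n A) := by
  funext a
  by_cases h : t ≤ a
  · rw [cut_of_le h]
    unfold mulz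
    rw [cut_of_le h]
  · rw [not_le] at h
    rw [cut_of_lt h, mulz_of_ne _ _ (by linarith), cut_of_lt h]

/-- Multiplication of the label at height `0`. -/
noncomputable def mulPt (n : L) (z : Pt S) (h : z.s ≤ 0) : Pt S where
  s := z.s
  A := mulz n z.A
  x := z.x
  fin := by
    have h1 : Function.mulSupport (mulz n z.A) ⊆ insert 0 (Function.mulSupport z.A) := by
      intro a ha
      by_cases h2 : a = 0
      · exact Or.inl h2
      · right
        rw [Function.mem_mulSupport, mulz_of_ne n z.A h2] at ha
        exact ha
    exact (z.fin.insert 0).subset h1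
  le := fun a ha => by rw [mulz_of_ne n z.A (by linarith), z.le a ha]

open Classical in
/-- The swap map. -/
noncomputable def sig (n : L) (z : Pt S) : Pt S :=
  if h : mx z ≤ 0 then mulPt n z ((le_mx z).trans h) else rot (S.ev (mx z) n) z

lemma sig_low (n : L) (z : Pt S) (h : mx z ≤ 0) :
    sig n z = mulPt n z ((le_mx z).trans h) := dif_pos h

lemma sig_high (n : L) (z : Pt S) (h : 0 < mx z) : sig n z = rot (S.ev (mx z) n) z :=
  dif_neg (not_le.2 h)

lemma mx_mulPt (n : L) (z : Pt S) (h : mx z ≤ 0) : mx (mulPt n z ((le_mx z).trans h)) ≤ 0 := by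
  rcases mx_mem (mulPt n z ((le_mx z).trans h)) with h1 | h1
  · rw [h1]
    exact (le_mx z).trans h
  · by_contra h2
    rw [not_le] at h2
    apply h1
    change mulz n z.A _ = 1
    rw [mulz_of_ne n z.A h2.ne']
    exact eq_one_of_lt (h.trans_lt h2)

lemma sig_sig (n n' : L) (z : Pt S) : sig n (sig n' z) = sig (n * n') z := by
  rcases lt_or_ge 0 (mx z) with h | h
  · rw [sig_high n' z h, sig_high (n * n') z h, sig_high n _ (by rwa [mx_rot]), mx_rot, rot_rot,
      map_mul]
  · rw [sig_low n' z h, sig_low (n * n') z h, sig_low n _ (mx_mulPt n' z h)]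
    apply Pt.ext'
    · rfl
    · funext a
      change mulz n (mulz n' z.A) a = mulz (n * n') z.A a
      unfold mulz
      split_ifs
      · rw [mul_assoc]
      · rfl
    · rfl

lemma sig_one (z : Pt S) : sig 1 z = z := by
  rcases lt_or_ge 0 (mx z) with h | h
  · rw [sig_high 1 z h, map_one, rot_one]
  · rw [sig_low 1 z h]
    apply Pt.ext'
    · rfl
    · funext a
      change mulz 1 z.A a = z.A a
      unfold mulz
      split_ifs
      · rw [one_mul]
      · rfl
    · rfl

/-- Piecewise limits. -/
lemma tendsto_ite_le {m : ℝ} {g : X} {f f' : ℝ × X → ℝ × X} {y : ℝ × X}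
    (hf : Tendsto f (𝓝 (m, g)) (𝓝 y)) (hf' : Tendsto f' (𝓝[>] m ×ˢ 𝓝 g) (𝓝 y)) :
    Tendsto (fun p : ℝ × X => if p.1 ≤ m then f p else f' p) (𝓝 (m, g)) (𝓝 y) := by
  classical
  have h3 : 𝓝[>] m ×ˢ 𝓝 g = 𝓝[{p : ℝ × X | m < p.1}] (m, g) := by
    have := nhdsWithin_prod_eq m g (Set.Ioi m) Set.univ
    rw [nhdsWithin_univ] at this
    rw [← this]
    congr 1
    ext p
    simp
  rw [h3] at hf'
  intro U hU
  have h1 := hf hU
  have h2 := mem_nhdsWithin_iff_eventually.1 (hf' hU)
  rw [mem_map] at *
  filter_upwards [h1, h2] with p hp1 hp2
  by_cases hp : p.1 ≤ m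
  · simpa [hp] using hp1
  · have := hp2 (not_le.1 hp)
    simpa [hp] using this

lemma continuous_sig (n : L) : Continuous (sig n : Pt S → Pt S) := by
  classical
  rw [continuous_iff_continuousAt]
  intro z
  rcases lt_or_ge 0 (mx z) with hm | hm
  · -- high case
    set m := mx z with hmdef
    set c := S.ev m n with hc
    have hsig : sig n z = rot c z := sig_high n z hm
    rcases (le_mx z).lt_or_eq with hlt | heq
    · have hmem : z.A m ≠ 1 := by
        rcases mx_mem z with h | h
        · exact absurd h hlt.ne'
        · exact h
      apply continuousAt_of z (fun p => (p.1, c • p.2))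
      · rw [hsig]
        have h1 : Continuous fun x : X => c • x := S.cont_smul c
        exact Continuous.tendsto (f := fun p : ℝ × X => (p.1, c • p.2)) (by fun_prop) (z.s, z.x)
      · have h1 : ∀ᶠ p : ℝ × X in 𝓝 (z.s, z.x), p.1 < m :=
          continuous_fst.continuousAt.eventually (gt_mem_nhds hlt)
        filter_upwards [h1] with p hp
        have h2 : mx (chart z p) = m := by
          apply mx_eq (show p.1 ≤ m from hp.le)
          · intro a ha
            change cut p.1 z.A a = 1
            rw [cut_of_le (hp.trans ha).le]
            exact eq_one_of_lt ha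
          · right
            change cut p.1 z.A m ≠ 1
            rw [cut_of_le hp.le]
            exact hmem
        rw [sig_high _ _ (by rw [h2]; exact hm), h2, ← hc, hsig, rot_chart]
    · -- the height is the top
      have heq' : z.s = m := heq
      have hA : ∀ a, a ≠ m → z.A a = 1 := by
        intro a ha
        rcases lt_or_gt_of_ne ha with h | h
        · exact z.le a (heq' ▸ h)
        · exact eq_one_of_lt h
      by_cases hγ1 : z.A m = 1
      · -- no labels
        have hA1 : ∀ a, z.A a = 1 := by
          intro a
          by_cases ha : a = m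
          · rw [ha]
            exact hγ1
          · exact hA a ha
        apply continuousAt_of z (fun p => (p.1, S.ev p.1 n • p.2))
        · have h0 : ((sig n z).s, (sig n z).x) = (z.s, S.ev z.s n • z.x) := by
            rw [hsig, heq']
            exact Prod.ext heq' rfl
          rw [h0]
          have h1 : ContinuousAt (fun p : ℝ × X => S.ev p.1 n • p.2) (z.s, z.x) := by
            apply (S.cont n).continuousAt
            apply (isOpen_Ioi.prod isOpen_univ).mem_nhds
            exact ⟨by rw [heq']; exact hm, mem_univ _⟩
          exact continuousAt_fst.prodMk h1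
        · have h1 : ∀ᶠ p : ℝ × X in 𝓝 (z.s, z.x), 0 < p.1 :=
            continuous_fst.continuousAt.eventually (lt_mem_nhds (by rw [heq']; exact hm))
          filter_upwards [h1] with p hp
          have h2 : mx (chart z p) = p.1 := by
            apply mx_eq (le_refl p.1)
            · intro a ha
              change cut p.1 z.A a = 1
              rw [cut_of_le ha.le]
              exact hA1 a
            · exact Or.inl rfl
          rw [sig_high _ _ (by rw [h2]; exact hp), h2, hsig]
          apply Pt.ext'
          · rfl
          · funext a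
            change S.conj (S.ev p.1 n) (cut p.1 z.A a) = cut p.1 (fun a => S.conj c (z.A a)) a
            have h3 : cut p.1 z.A a = 1 := by
              unfold cut
              split_ifs
              · exact hA1 a
              · rfl
            rw [h3, map_one]
            unfold cut
            split_ifs
            · change 1 = S.conj c (z.A a)
              rw [hA1, map_one]
            · rfl
          · change S.ev p.1 n • S.ev (p.1 - z.s) (z.A z.s) • p.2 =
              S.ev (p.1 - z.s) (S.conj c (z.A z.s)) • S.ev p.1 n • p.2
            rw [hA1, map_one, map_one, map_one, one_smul, one_smul]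
      · set γ := z.A m with hγ
        have hrotA : (rot c z).A = fun a => S.conj c (z.A a) := rfl
        apply continuousAt_of z (fun p => if p.1 ≤ m then (p.1, c • p.2) else
          (p.1, c • ((S.ev (p.1 - m) γ)⁻¹ * ((S.ev m n)⁻¹ *
            (S.ev (m + (p.1 - m)) n * S.ev (p.1 - m) γ))) • p.2))
        · have h0 : ((sig n z).s, (sig n z).x) = (m, c • z.x) := by
            rw [hsig]
            exact Prod.ext heq' rfl
          rw [h0, heq']
          have hcc : Continuous fun x : X => c • x := S.cont_smul c
          apply tendsto_ite_le
          · exact Continuous.tendsto (f := fun p : ℝ × X => (p.1, c • p.2)) (by fun_prop)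
              (m, z.x)
          · have hfst : Tendsto (fun p : ℝ × X => p.1) (𝓝[>] m ×ˢ 𝓝 z.x) (𝓝[>] m) := tendsto_fst
            have h1 : Tendsto (fun p : ℝ × X => p.1 - m) (𝓝[>] m ×ˢ 𝓝 z.x) (𝓝[>] 0) := by
              have h2 : Tendsto (fun s : ℝ => s - m) (𝓝[>] m) (𝓝[>] 0) := by
                apply tendsto_nhdsWithin_iff.2
                constructor
                · have h2 : Tendsto (fun s : ℝ => s - m) (𝓝 m) (𝓝 (m - m)) :=
                    (continuous_id.sub continuous_const).tendsto m
                  rw [sub_self] at h2
                  exact h2.mono_left nhdsWithin_le_nhds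
                · filter_upwards [self_mem_nhdsWithin] with s hs
                  have hs' : m < s := hs
                  exact sub_pos.2 hs'
              exact h2.comp hfst
            have h3 : Tendsto (fun p : ℝ × X => (p.1 - m, p.2)) (𝓝[>] m ×ˢ 𝓝 z.x)
                (𝓝[>] 0 ×ˢ 𝓝 z.x) := h1.prodMk tendsto_snd
            have h4 := (S.asym n γ m hm z.x).comp h3
            have h5 := (hcc.tendsto z.x).comp h4
            exact (hfst.mono_right nhdsWithin_le_nhds).prodMk_nhds h5
        · have h1 : ∀ᶠ p : ℝ × X in 𝓝 (z.s, z.x), 0 < p.1 :=
            continuous_fst.continuousAt.eventually (lt_mem_nhds (by rw [heq']; exact hm))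
          filter_upwards [h1] with p hp
          by_cases hpm : p.1 ≤ m
          · rw [if_pos hpm]
            have h2 : mx (chart z p) = m := by
              apply mx_eq (show p.1 ≤ m from hpm)
              · intro a ha
                change cut p.1 z.A a = 1
                rw [cut_of_le (hpm.trans ha.le)]
                exact eq_one_of_lt ha
              · right
                change cut p.1 z.A m ≠ 1
                rw [cut_of_le hpm]
                exact hγ1
            rw [sig_high _ _ (by rw [h2]; exact hm), h2, ← hc, hsig, rot_chart]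
          · rw [if_neg hpm]
            rw [not_le] at hpm
            have hcut : ∀ a, cut p.1 z.A a = 1 := by
              intro a
              unfold cut
              split_ifs with h3
              · exact hA a (by linarith)
              · rfl
            have h2 : mx (chart z p) = p.1 :=
              mx_eq (le_refl p.1) (fun a _ => hcut a) (Or.inl rfl)
            rw [sig_high _ _ (by rw [h2]; exact hp), h2, hsig]
            apply Pt.ext'
            · rfl
            · funext a
              change S.conj (S.ev p.1 n) (cut p.1 z.A a) = cut p.1 (fun a => S.conj c (z.A a)) a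
              rw [cut_conj]
              change _ = S.conj c (cut p.1 z.A a)
              rw [hcut, map_one, map_one]
            · change S.ev p.1 n • S.ev (p.1 - z.s) (z.A z.s) • p.2 =
                S.ev (p.1 - z.s) (S.conj c (z.A z.s)) • c • _ • p.2
              rw [heq', ← hγ, S.ev_conj]
              simp only [← mul_smul]
              congr 1
              have h3 : m + (p.1 - m) = p.1 := by ring
              rw [h3, ← hc]
              group
  · -- low case
    have hsig : sig n z = mulPt n z ((le_mx z).trans hm) := sig_low n z hm
    have hA0 : ∀ a, 0 < a → z.A a = 1 := fun a ha => eq_one_of_lt (hm.trans_lt ha)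
    have hlow : ∀ p : ℝ × X, p.1 ≤ 0 → mx (chart z p) ≤ 0 := by
      intro p hp
      rcases mx_mem (chart z p) with h | h
      · rw [h]
        exact hp
      · by_contra h2
        rw [not_le] at h2
        apply h
        change cut p.1 z.A _ = 1
        rw [cut_of_le (hp.trans h2.le)]
        exact hA0 _ h2
    rcases ((le_mx z).trans hm).lt_or_eq with hlt | heq
    · apply continuousAt_of z id
      · rw [hsig]
        exact tendsto_id
      · have h1 : ∀ᶠ p : ℝ × X in 𝓝 (z.s, z.x), p.1 < 0 :=
          continuous_fst.continuousAt.eventually (gt_mem_nhds hlt)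
        filter_upwards [h1] with p hp
        rw [sig_low _ _ (hlow p hp.le), hsig]
        apply Pt.ext'
        · rfl
        · exact mulz_cut n hp.le z.A
        · change S.ev (p.1 - z.s) (z.A z.s) • p.2 = S.ev (p.1 - z.s) (mulz n z.A z.s) • p.2
          rw [mulz_of_ne n z.A hlt.ne]
    · have hA : ∀ a, a ≠ 0 → z.A a = 1 := by
        intro a ha
        rcases lt_or_gt_of_ne ha with h | h
        · exact z.le a (heq ▸ h)
        · exact hA0 a h
      apply continuousAt_of z id
      · rw [hsig]
        exact tendsto_id
      · refine Eventually.of_forall fun p => ?_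
        by_cases hp : p.1 ≤ 0
        · rw [sig_low _ _ (hlow p hp), hsig]
          apply Pt.ext'
          · rfl
          · exact mulz_cut n hp z.A
          · change S.ev (p.1 - z.s) (z.A z.s) • p.2 = S.ev (p.1 - z.s) (mulz n z.A z.s) • p.2
            rw [heq, S.ev_nonpos _ (by linarith), S.ev_nonpos _ (by linarith)]
        · rw [not_le] at hp
          have hcut : ∀ a, cut p.1 z.A a = 1 := by
            intro a
            unfold cut
            split_ifs with h3
            · exact hA a (by linarith)
            · rfl
          have h2 : mx (chart z p) = p.1 :=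
            mx_eq (le_refl p.1) (fun a _ => hcut a) (Or.inl rfl)
          rw [sig_high _ _ (by rw [h2]; exact hp), h2, hsig]
          apply Pt.ext'
          · rfl
          · funext a
            change S.conj (S.ev p.1 n) (cut p.1 z.A a) = cut p.1 (mulz n z.A) a
            rw [hcut, map_one]
            unfold cut
            split_ifs with h3
            · rw [mulz_of_ne n z.A (by linarith)]
              exact (hA a (by linarith)).symm
            · rfl
          · change S.ev p.1 n • S.ev (p.1 - z.s) (z.A z.s) • p.2 =
              S.ev (p.1 - z.s) (mulz n z.A z.s) • p.2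
            rw [heq, mulz_zero, map_mul, mul_smul, sub_zero]

/-- The swap homeomorphism. -/
noncomputable def sigH (n : L) : Pt S ≃ₜ Pt S where
  toFun := sig n
  invFun := sig n⁻¹
  left_inv z := by rw [sig_sig, inv_mul_cancel, sig_one]
  right_inv z := by rw [sig_sig, mul_inv_cancel, sig_one]
  continuous_toFun := continuous_sig n
  continuous_invFun := continuous_sig n⁻¹

/-! ### Homogeneity -/

/-- A point without labels. -/
def pe (s : ℝ) (x : X) : Pt S where
  s := s
  A := fun _ => 1
  x := x
  fin := by
    have : Function.mulSupport (fun _ : ℝ => (1 : L)) = ∅ := Function.mulSupport_fun_one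
    rw [this]
    exact finite_empty
  le := fun _ _ => rfl

/-- Two points are equivalent if a homeomorphism maps one to the other. -/
def Eqv (z w : Pt S) : Prop := ∃ h : Pt S ≃ₜ Pt S, h z = w

lemma Eqv.symm {z w : Pt S} (h : Eqv z w) : Eqv w z := by
  obtain ⟨e, rfl⟩ := h
  exact ⟨e.symm, e.symm_apply_apply z⟩

lemma Eqv.trans {z w v : Pt S} (h : Eqv z w) (h' : Eqv w v) : Eqv z v := by
  obtain ⟨e, rfl⟩ := h
  obtain ⟨e', rfl⟩ := h'
  exact ⟨e.trans e', rfl⟩

lemma eqv_origin (x0 : X) (N : ℕ) : ∀ z : Pt S, (Function.mulSupport z.A).ncard = N →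
    Eqv z (pe 0 x0) := by
  classical
  induction N with
  | zero =>
    intro z hz
    rw [Set.ncard_eq_zero z.fin, Function.mulSupport_eq_empty_iff] at hz
    obtain ⟨c, hc⟩ := S.trans z.x x0
    refine ⟨(translH (-z.s)).trans (rotH c), ?_⟩
    apply Pt.ext'
    · exact add_neg_cancel z.s
    · funext a
      change S.conj c (z.A (a - -z.s)) = 1
      rw [hz]
      exact map_one _
    · exact hc
  | succ N ih =>
    intro z hz
    have hne : (Function.mulSupport z.A).Nonempty := by
      apply Set.nonempty_of_ncard_ne_zero
      omega
    set m := mx z with hm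
    have hmA : z.A m ≠ 1 := by
      rcases mx_mem z with h | h
      · obtain ⟨a, ha⟩ := hne
        have h2 := le_mx' ha
        have h1 : z.s ≤ a := by
          by_contra h3
          exact ha (z.le a (not_le.1 h3))
        have h4 : a = m := le_antisymm h2 (by rw [hm, h]; exact h1)
        rw [← h4]
        exact ha
      · exact h
    let z1 := transl (-m) z
    have hz1A : ∀ a, z1.A a = z.A (a + m) := by
      intro a
      change z.A (a - -m) = z.A (a + m)
      rw [sub_neg_eq_add]
    have hmx : mx z1 ≤ 0 := by
      rcases mx_mem z1 with h | h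
      · rw [h]
        change z.s + -m ≤ 0
        linarith [le_mx z]
      · by_contra h2
        rw [not_le] at h2
        apply h
        rw [hz1A]
        exact eq_one_of_lt (by linarith)
    have hsig : sigH (z1.A 0)⁻¹ z1 = mulPt (z1.A 0)⁻¹ z1 ((le_mx z1).trans hmx) :=
      sig_low _ z1 hmx
    have hcard : (Function.mulSupport (sigH (z1.A 0)⁻¹ z1).A).ncard = N := by
      rw [hsig]
      have h3 : Function.mulSupport (mulPt (z1.A 0)⁻¹ z1 ((le_mx z1).trans hmx)).A =
          (fun a => a - m) '' (Function.mulSupport z.A \ {m}) := by
        ext a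
        change mulz (z1.A 0)⁻¹ z1.A a ≠ 1 ↔ _
        rw [Set.mem_image]
        constructor
        · intro h
          refine ⟨a + m, ⟨?_, ?_⟩, by ring⟩
          · intro h4
            apply h
            unfold mulz
            split_ifs with h5
            · rw [h5, inv_mul_cancel]
            · rw [hz1A]
              exact h4
          · intro h4
            have h5 : a = 0 := by
              have h6 : a + m = m := h4
              linarith
            apply h
            rw [h5, mulz_zero, inv_mul_cancel]
        · rintro ⟨b, ⟨hb1, hb2⟩, rfl⟩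
          have h4 : b - m ≠ 0 := fun h => hb2 (by
            have : b = m := by linarith
            exact this)
          rw [mulz_of_ne _ _ h4, hz1A]
          have h5 : b - m + m = b := by ring
          rw [h5]
          exact hb1
      rw [h3, Set.ncard_image_of_injective _ (sub_left_injective), Set.ncard_sdiff_singleton_of_mem hmA,
        hz]
      rfl
    have h4 : Eqv z (sigH (z1.A 0)⁻¹ z1) := ⟨(translH (-m)).trans (sigH (z1.A 0)⁻¹), rfl⟩
    exact h4.trans (ih _ hcard)

theorem homogeneous : IsHomogeneous (Pt S) := fun z w =>
  (eqv_origin z.x _ z rfl).trans (eqv_origin z.x _ w rfl).symm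

end Q178.HNS
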