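import Pool.Agent.Q178.HNS.Homog

set_option autoImplicit false
set_option linter.unusedSectionVars false

/-!
The non-separated sets.
-/

namespace Q178.HNS

open Set Filter Topology Q178.HNH

variable {G L X : Type} [Group G] [Group L] [TopologicalSpace X] [MulAction G X] {S : Sys G L X}

/-! ### Connectedness -/

lemma isPreconnected_dom (z : Pt S) : IsPreconnected (dom z) := by
  apply Set.OrdConnected.isPreconnected
  constructor
  intro a _ b hb c hc
  exact mem_dom_of_le hb hc.2

lemma chart_pe (s : ℝ) (x : X) (p : ℝ × X) : chart (pe s x : Pt S) p = pe p.1 p.2 := by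
  apply Pt.ext'
  · rfl
  · funext a
    change cut p.1 (fun _ => (1 : L)) a = 1
    unfold cut
    split_ifs <;> rfl
  · change S.ev (p.1 - s) 1 • p.2 = p.2
    rw [map_one, one_smul]

lemma dom_pe (s : ℝ) (x : X) : dom (pe s x : Pt S) = univ := by
  ext t
  simp [dom, pe]

lemma continuous_pe : Continuous fun p : ℝ × X => (pe p.1 p.2 : Pt S) := by
  rw [continuous_iff_continuousAt]
  intro p
  have h := (continuousOn_chart (pe 0 p.2 : Pt S)).continuousAt
    (x := p) (by
      rw [dom_pe]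
      simp)
  have h1 : (chart (pe 0 p.2 : Pt S)) = fun p : ℝ × X => (pe p.1 p.2 : Pt S) := by
    funext q
    exact chart_pe 0 p.2 q
  rwa [h1] at h

lemma joined [PreconnectedSpace X] (x0 : X) (N : ℕ) : ∀ z : Pt S,
    (Function.mulSupport z.A).ncard = N →
      ∃ T : Set (Pt S), pe 0 x0 ∈ T ∧ z ∈ T ∧ IsPreconnected T := by
  classical
  induction N using Nat.strong_induction_on with
  | _ N ih =>
  intro z hz
  by_cases hN : N = 0
  · rw [hN, Set.ncard_eq_zero z.fin, Function.mulSupport_eq_empty_iff] at hz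
    refine ⟨range fun p : ℝ × X => (pe p.1 p.2 : Pt S), ⟨(0, x0), rfl⟩, ⟨(z.s, z.x), ?_⟩,
      isPreconnected_range continuous_pe⟩
    exact Pt.ext' rfl hz.symm rfl
  · have hne : (Function.mulSupport z.A).Nonempty := by
      apply Set.nonempty_of_ncard_ne_zero
      omega
    -- the lowest label
    obtain ⟨m, hm1, hm2⟩ := z.fin.toFinset.exists_min_image id
      ((Set.Finite.toFinset_nonempty z.fin).2 hne)
    rw [z.fin.mem_toFinset] at hm1
    have hsm : z.s ≤ m := by
      by_contra h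
      exact hm1 (z.le m (not_le.1 h))
    have hlow : ∀ a, a < m → z.A a = 1 := by
      intro a ha
      by_contra h
      exact absurd (hm2 a (z.fin.mem_toFinset.2 h)) (not_le.2 ha)
    let w : Pt S := ⟨m, z.A, z.x, z.fin, hlow⟩
    obtain ⟨ε, hε, hball⟩ := Metric.isOpen_iff.1 (isOpen_dom w) m (self_mem_dom w)
    have hmem : m + ε / 2 ∈ dom w := by
      apply hball
      rw [Metric.mem_ball, Real.dist_eq, add_sub_cancel_left, abs_of_pos (by linarith)]
      linarith
    let v : Pt S := chart w (m + ε / 2, z.x)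
    have hv : (Function.mulSupport v.A).ncard < N := by
      rw [← hz]
      apply Set.ncard_lt_ncard _ z.fin
      refine ⟨mulSupport_cut _ _, fun h => ?_⟩
      have h1 : cut (m + ε / 2) z.A m ≠ 1 := h hm1
      exact h1 (cut_of_lt (by linarith) _)
    obtain ⟨T, hT1, hT2, hT3⟩ := ih _ hv v rfl
    refine ⟨T ∪ chart w '' (dom w ×ˢ univ), Or.inl hT1, Or.inr ⟨(z.s, z.x), ?_, ?_⟩, ?_⟩
    · exact ⟨mem_dom_of_le (self_mem_dom w) hsm, mem_univ _⟩
    · apply Pt.ext'
      · rfl
      · exact cut_eq_self z.le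
      · change S.ev (z.s - m) (z.A m) • z.x = z.x
        rw [S.ev_nonpos _ (by linarith), one_smul]
    · apply hT3.union v hT2
      · exact mem_image_of_mem _ ⟨hmem, mem_univ _⟩
      · apply IsPreconnected.image ((isPreconnected_dom w).prod isPreconnected_univ)
        exact (continuousOn_chart w).mono fun p hp => hp.1

theorem connected [PreconnectedSpace X] [Nonempty X] : ConnectedSpace (Pt S) := by
  obtain ⟨x0⟩ := ‹Nonempty X›
  have : PreconnectedSpace (Pt S) := by
    constructor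
    apply isPreconnected_of_forall (pe 0 x0)
    intro z _
    obtain ⟨T, h1, h2, h3⟩ := joined x0 _ z rfl
    exact ⟨T, subset_univ _, h1, h2, h3⟩
  exact { toPreconnectedSpace := this, toNonempty := ⟨pe 0 x0⟩ }

/-! ### The local structure -/

lemma isOpenEmbedding_pe [Nonempty X] :
    IsOpenEmbedding fun p : ℝ × X => (pe p.1 p.2 : Pt S) := by
  apply IsOpenEmbedding.of_continuous_injective_isOpenMap continuous_pe
  · rintro ⟨t, x⟩ ⟨t', x'⟩ h
    have h1 : t = t' := congrArg Pt.s h
    have h2 : x = x' := congrArg Pt.x h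
    rw [h1, h2]
  · intro O hO
    obtain ⟨x0⟩ := ‹Nonempty X›
    have h1 : (chart (pe 0 x0 : Pt S)) = fun p : ℝ × X => (pe p.1 p.2 : Pt S) := by
      funext q
      exact chart_pe 0 x0 q
    rw [← h1]
    apply isOpen_image_chart _ hO
    intro p _
    rw [dom_pe]
    exact mem_univ _

theorem euclidean {n : ℕ} (V : Set X) (hV : IsOpen V) (x0 : X) (h0 : x0 ∈ V)
    (e : (ℝ × V) ≃ₜ EuclideanSpace ℝ (Fin n)) (z : Pt S) :
    ∃ U : Set (Pt S), IsOpen U ∧ z ∈ U ∧ Nonempty (U ≃ₜ EuclideanSpace ℝ (Fin n)) := by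
  have : Nonempty X := ⟨x0⟩
  obtain ⟨h, hh⟩ := homogeneous (pe 0 x0 : Pt S) z
  have h2 : IsOpenEmbedding (fun p : ℝ × V => h (pe p.1 (p.2 : X) : Pt S)) :=
    h.isOpenEmbedding.comp (isOpenEmbedding_pe.comp
      (IsOpenEmbedding.id.prodMap hV.isOpenEmbedding_subtypeVal))
  refine ⟨_, h2.isOpen_range, ⟨(0, ⟨x0, h0⟩), hh⟩, ⟨h2.toIsEmbedding.toHomeomorph.symm.trans e⟩⟩

/-! ### The non-separated points -/

open Classical in
/-- Changing the label at the height of a point. -/
noncomputable def opp (z : Pt S) (γ : L) (x : X) : Pt S where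
  s := z.s
  A := fun a => if a = z.s then γ else z.A a
  x := x
  fin := by
    have h1 : Function.mulSupport (fun a => if a = z.s then γ else z.A a) ⊆
        insert z.s (Function.mulSupport z.A) := by
      intro a ha
      by_cases h2 : a = z.s
      · exact Or.inl h2
      · right
        rw [Function.mem_mulSupport, if_neg h2] at ha
        exact ha
    exact (z.fin.insert z.s).subset h1
  le := fun a ha => by rw [if_neg ha.ne, z.le a ha]

lemma opp_s (z : Pt S) (γ : L) (x : X) : (opp z γ x).s = z.s := rfl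

lemma opp_x (z : Pt S) (γ : L) (x : X) : (opp z γ x).x = x := rfl

lemma opp_A_self (z : Pt S) (γ : L) (x : X) : (opp z γ x).A z.s = γ := if_pos rfl

lemma opp_A_ne (z : Pt S) (γ : L) (x : X) {a : ℝ} (h : a ≠ z.s) : (opp z γ x).A a = z.A a :=
  if_neg h

lemma opp_mem_NH (z : Pt S) {γ : L} (hγ : γ ≠ z.A z.s) (x : X) : opp z γ x ∈ NH z := by
  set y := opp z γ x with hy
  have hys : y.s = z.s := rfl
  refine ⟨fun h => ?_, fun U V hU hV hyU hzV => ?_⟩
  · apply hγ
    rw [← opp_A_self z γ x, ← hy, h]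
  · have hU' : ∀ᶠ p in 𝓝 (z.s, x), chart y p ∈ U := by
      have h1 := nhds_eq y
      have h2 : U ∈ map (chart y) (𝓝 (y.s, y.x)) := by
        rw [← h1]
        exact hU.mem_nhds hyU
      exact h2
    have hV' : ∀ᶠ p in 𝓝 (z.s, z.x), chart z p ∈ V := by
      have h1 := nhds_eq z
      have h2 : V ∈ map (chart z) (𝓝 (z.s, z.x)) := by
        rw [← h1]
        exact hV.mem_nhds hzV
      exact h2
    rw [nhds_prod_eq, eventually_prod_iff] at hU' hV'
    obtain ⟨a1, ha1, b1, hb1, h1⟩ := hU'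
    obtain ⟨a2, ha2, b2, hb2, h2⟩ := hV'
    obtain ⟨O1, hO1, hO1o, hxO1⟩ := mem_nhds_iff.1 hb1
    obtain ⟨O2, hO2, hO2o, hxO2⟩ := mem_nhds_iff.1 hb2
    have hne : γ⁻¹ * z.A z.s ≠ 1 := fun h => hγ (by
      rw [inv_mul_eq_one] at h
      exact h)
    have h3 := S.cluster _ hne O2 O1 hO2o hO1o ⟨_, hxO2⟩ ⟨_, hxO1⟩
    have h4 : ∀ᶠ u : ℝ in 𝓝[>] 0, a1 (z.s + u) ∧ a2 (z.s + u) ∧ 0 < u := by
      have hc : Tendsto (fun u : ℝ => z.s + u) (𝓝[>] 0) (𝓝 z.s) := by
        have h5 : Continuous fun u : ℝ => z.s + u := by fun_prop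
        have h6 := h5.tendsto 0
        rw [add_zero] at h6
        exact h6.mono_left nhdsWithin_le_nhds
      filter_upwards [hc.eventually ha1, hc.eventually ha2, self_mem_nhdsWithin] with u h5 h6 h7
      exact ⟨h5, h6, h7⟩
    obtain ⟨u, ⟨v, hv1, hv2⟩, hu1, hu2, hu3⟩ := (h3.and_eventually h4).exists
    refine ⟨chart z (z.s + u, v), ?_, h2 hu2 (hO2 hv1)⟩
    have h5 := h1 hu1 (hO1 hv2)
    have h6 : chart y (z.s + u, S.ev u (γ⁻¹ * z.A z.s) • v) = chart z (z.s + u, v) := by
      apply Pt.ext'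
      · rfl
      · change cut (z.s + u) y.A = cut (z.s + u) z.A
        funext a
        unfold cut
        split_ifs with h7
        · rw [hy, opp_A_ne z γ x (by linarith)]
        · rfl
      · change S.ev (z.s + u - z.s) (y.A z.s) • S.ev u (γ⁻¹ * z.A z.s) • v =
          S.ev (z.s + u - z.s) (z.A z.s) • v
        have h7 : z.s + u - z.s = u := by ring
        rw [h7, hy, opp_A_self, ← mul_smul, ← map_mul, mul_inv_cancel_left]
    rwa [h6] at h5

lemma mem_NH_iff [T2Space X] (z y : Pt S) :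
    y ∈ NH z ↔ y.s = z.s ∧ (∀ a, a ≠ z.s → y.A a = z.A a) ∧ y.A z.s ≠ z.A z.s := by
  constructor
  · rintro ⟨hyz, hy⟩
    -- equal heights
    have hs : y.s = z.s := by
      by_contra hne
      obtain ⟨U, V, hU, hV, hyU, hzV, hd⟩ := t2_separation hne
      obtain ⟨w, hw1, hw2⟩ := hy _ _ (hU.preimage continuous_s) (hV.preimage continuous_s)
        hyU hzV
      exact hd.ne_of_mem hw1 hw2 rfl
    -- different labels
    have hA : y.A ≠ z.A := by
      intro hA
      have hg : (y.s, y.x) ≠ (z.s, z.x) := by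
        intro h
        apply hyz
        exact Pt.ext' hs hA (congrArg Prod.snd h)
      obtain ⟨U, V, hU, hV, hyU, hzV, hd⟩ := t2_separation hg
      have hD : IsOpen {p : ℝ × X | p.1 ∈ dom z} := (isOpen_dom z).preimage continuous_fst
      have hyU' : y ∈ chart z '' (U ∩ {p : ℝ × X | p.1 ∈ dom z}) := by
        refine ⟨(y.s, y.x), ⟨hyU, ?_⟩, ?_⟩
        · change y.s ∈ dom z
          rw [hs]
          exact self_mem_dom z
        · have := chart_self y
          apply Pt.ext'
          · rfl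
          · change cut y.s z.A = y.A
            rw [← hA]
            exact cut_eq_self y.le
          · change S.ev (y.s - z.s) (z.A z.s) • y.x = y.x
            rw [S.ev_nonpos _ (by linarith), one_smul]
      have hzV' : z ∈ chart z '' (V ∩ {p : ℝ × X | p.1 ∈ dom z}) :=
        ⟨(z.s, z.x), ⟨hzV, self_mem_dom z⟩, chart_self z⟩
      obtain ⟨w, ⟨p, hp, rfl⟩, ⟨q, hq, hpq⟩⟩ := hy _ _
        (isOpen_image_chart z (hU.inter hD) fun p hp => hp.2)
        (isOpen_image_chart z (hV.inter hD) fun p hp => hp.2) hyU' hzV'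
      have := chart_injective z hpq
      exact hd.ne_of_mem hp.1 hq.1 this.symm
    -- the labels agree above the height
    have hA' : ∀ a, z.s < a → y.A a = z.A a := by
      intro e he
      have hO : ∀ w : Pt S, IsOpen {p : ℝ × X | p.1 ∈ dom w ∧ p.1 < e} := fun w =>
        ((isOpen_dom w).preimage continuous_fst).inter
          (isOpen_lt continuous_fst continuous_const)
      obtain ⟨w, ⟨p, hp, rfl⟩, ⟨q, hq, hpq⟩⟩ := hy _ _
        (isOpen_image_chart y (hO y) fun p hp => hp.1)
        (isOpen_image_chart z (hO z) fun p hp => hp.1)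
        ⟨(y.s, y.x), ⟨self_mem_dom y, by rw [hs]; exact he⟩, chart_self y⟩
        ⟨(z.s, z.x), ⟨self_mem_dom z, he⟩, chart_self z⟩
      have h1 : cut q.1 z.A = cut p.1 y.A := congrArg Pt.A hpq
      have h2 := congrFun h1 e
      rw [cut_of_le hq.2.le, cut_of_le hp.2.le] at h2
      exact h2.symm
    have hne : ∀ a, a ≠ z.s → y.A a = z.A a := by
      intro a ha
      rcases lt_or_gt_of_ne ha with h | h
      · rw [z.le a h, y.le a (hs ▸ h)]
      · exact hA' a h
    refine ⟨hs, hne, fun h => hA ?_⟩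
    funext a
    by_cases ha : a = z.s
    · rw [ha, h]
    · exact hne a ha
  · rintro ⟨h1, h2, h3⟩
    have h4 : y = opp z (y.A z.s) y.x := by
      apply Pt.ext' (w := opp z (y.A z.s) y.x) h1
      · funext a
        by_cases ha : a = z.s
        · rw [ha, opp_A_self]
        · rw [opp_A_ne z _ _ ha, h2 a ha]
      · rfl
    rw [h4]
    exact opp_mem_NH z h3 _

lemma continuous_opp (z : Pt S) (γ : L) : Continuous (opp z γ) := by
  rw [continuous_iff_continuousAt]
  intro x
  rw [ContinuousAt, nhds_eq (opp z γ x)]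
  have h1 : opp z γ = fun x' => chart (opp z γ x) (z.s, x') := by
    funext x'
    have h2 := chart_self (opp z γ x')
    rw [← h2]
    apply Pt.ext'
    · rfl
    · rfl
    · rfl
  have h2 : Tendsto (fun x' : X => (z.s, x')) (𝓝 x) (𝓝 ((opp z γ x).s, (opp z γ x).x)) :=
    Continuous.tendsto (by fun_prop) x
  have h3 := (tendsto_map (f := chart (opp z γ x))).comp h2
  exact h3.congr fun x' => (congrFun h1 x').symm

/-- The non-separated set of every point is a topological sum of copies of `X`. -/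
theorem nonempty_NH_homeomorph [T2Space X] (z : Pt S) :
    Nonempty (NH z ≃ₜ Σ _ : {γ : L // γ ≠ z.A z.s}, X) := by
  let f : (Σ _ : {γ : L // γ ≠ z.A z.s}, X) → Pt S := fun q => opp z q.1.1 q.2
  have hf : Continuous f := continuous_sigma fun γ => continuous_opp z γ.1
  have hinj : Function.Injective f := by
    rintro ⟨γ, x⟩ ⟨γ', x'⟩ h
    have h1 : γ.1 = γ'.1 := by
      have := congrArg (fun w : Pt S => w.A z.s) h
      simpa only [f, opp_A_self] using this
    have h2 : x = x' := congrArg Pt.x h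
    have h3 : γ = γ' := Subtype.ext h1
    rw [h2, h3]
  have hrange : range f = NH z := by
    ext y
    rw [mem_NH_iff]
    constructor
    · rintro ⟨⟨γ, x⟩, rfl⟩
      refine ⟨rfl, fun a ha => opp_A_ne z _ _ ha, ?_⟩
      change (opp z γ.1 x).A z.s ≠ z.A z.s
      rw [opp_A_self]
      exact γ.2
    · rintro ⟨h1, h2, h3⟩
      refine ⟨⟨⟨y.A z.s, h3⟩, y.x⟩, ?_⟩
      apply Pt.ext' (z := opp z (y.A z.s) y.x) h1.symm
      · funext a
        change (opp z (y.A z.s) y.x).A a = y.A a
        by_cases ha : a = z.s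
        · rw [ha, opp_A_self]
        · rw [opp_A_ne z _ _ ha, h2 a ha]
      · rfl
  have hemb : IsEmbedding f := by
    refine ⟨⟨?_⟩, hinj⟩
    apply le_antisymm
    · exact hf.le_induced
    · -- open sets of the sum are induced
      intro O hO
      rw [isOpen_sigma_iff] at hO
      let W : Set (Pt S) := ⋃ (γ : {γ : L // γ ≠ z.A z.s}) (x : X) (_ : (⟨γ, x⟩ : Σ _ : {γ : L // γ ≠ z.A z.s}, X) ∈ O),
        chart (opp z γ.1 x) '' {p | p.1 ∈ dom (opp z γ.1 x) ∧ (⟨γ, p.2⟩ : Σ _ : {γ : L // γ ≠ z.A z.s}, X) ∈ O}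
      refine ⟨W, ?_, ?_⟩
      · refine isOpen_iUnion fun γ => isOpen_iUnion fun x => isOpen_iUnion fun _ => ?_
        apply isOpen_image_chart
        · exact ((isOpen_dom _).preimage continuous_fst).inter ((hO γ).preimage continuous_snd)
        · exact fun p hp => hp.1
      · ext ⟨γ, x⟩
        simp only [W, mem_preimage, mem_iUnion]
        constructor
        · rintro ⟨γ', x', hx', ⟨t, x''⟩, ⟨ht, hx''⟩, h⟩
          have h1 : t = z.s := congrArg Pt.s h
          have h2 := congrArg (fun w : Pt S => w.A z.s) h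
          simp only [f, opp_A_self] at h2
          have h3 : cut t (opp z γ'.1 x').A z.s = γ.1 := h2
          rw [cut_of_le h1.le, opp_A_self] at h3
          have h4 : γ' = γ := Subtype.ext h3
          subst h4
          have h5 : S.ev (t - z.s) ((opp z γ'.1 x').A z.s) • x'' = x := congrArg Pt.x h
          rw [S.ev_nonpos _ (by linarith), one_smul] at h5
          rw [← h5]
          exact hx''
        · intro h
          refine ⟨γ, x, h, (z.s, x), ⟨self_mem_dom (opp z γ.1 x), h⟩, ?_⟩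
          exact chart_self (opp z γ.1 x)
  exact ⟨(Homeomorph.setCongr hrange.symm).trans hemb.toHomeomorph.symm⟩

/-- The main construction. -/
theorem main [T2Space X] [PreconnectedSpace X] (S : Sys G L X) (hL : ∃ γ : L, γ ≠ 1) (n : ℕ)
    (V : Set X) (hV : IsOpen V) (x0 : X) (h0 : x0 ∈ V)
    (e : Nonempty ((ℝ × V) ≃ₜ EuclideanSpace ℝ (Fin n))) :
    ∃ (M : Type) (_ : TopologicalSpace M), IsHNH n M ∧
      ∀ z : M, ∃ ι : Type, Nonempty ι ∧ Nonempty (NH z ≃ₜ Σ _ : ι, X) := by
  obtain ⟨e⟩ := e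
  have : Nonempty X := ⟨x0⟩
  obtain ⟨γ0, hγ0⟩ := hL
  have hex : ∀ z : Pt S, ∃ γ : L, γ ≠ z.A z.s := by
    intro z
    by_cases h : z.A z.s = 1
    · exact ⟨γ0, by rwa [h]⟩
    · exact ⟨1, fun h' => h h'.symm⟩
  refine ⟨Pt S, inferInstance, ⟨⟨connected, euclidean V hV x0 h0 e⟩, homogeneous, ?_⟩,
    fun z => ⟨{γ : L // γ ≠ z.A z.s}, ?_, nonempty_NH_homeomorph z⟩⟩
  · intro h
    obtain ⟨γ, hγ⟩ := hex (pe 0 x0)
    have h1 := opp_mem_NH (pe 0 x0) hγ x0
    obtain ⟨U, W, hU, hW, h2, h3, h4⟩ := t2_separation h1.1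
    obtain ⟨w, hw1, hw2⟩ := h1.2 U W hU hW h2 h3
    exact h4.ne_of_mem hw1 hw2 rfl
  · obtain ⟨γ, hγ⟩ := hex z
    exact ⟨⟨γ, hγ⟩⟩

end Q178.HNS
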