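import Pool.Agent.Q178.HNH.Osc

set_option autoImplicit false

/-!
A slowly varying path which is dense in the complex plane near zero.
-/

namespace Q178.HNS

open Set Filter Topology Real Q178.HNH

/-- The path. -/
noncomputable def path (u : ℝ) : ℂ := (osc u : ℂ) * Complex.exp (Complex.I * (log u : ℝ))

lemma norm_path (u : ℝ) : ‖path u‖ = |osc u| := by
  unfold path
  rw [norm_mul, mul_comm Complex.I, Complex.norm_exp_ofReal_mul_I, mul_one, Complex.norm_real,
    Real.norm_eq_abs]

lemma continuousOn_path : ContinuousOn path (Ioi 0) := by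
  unfold path
  apply ContinuousOn.mul
  · exact Complex.continuous_ofReal.comp_continuousOn continuousOn_osc
  · apply Complex.continuous_exp.comp_continuousOn
    apply ContinuousOn.mul continuousOn_const
    apply Complex.continuous_ofReal.comp_continuousOn
    exact continuousOn_log.mono fun x hx => ne_of_gt hx

lemma abs_F_le {y : ℝ} (hy : 0 ≤ y) : |F y| ≤ y := by
  unfold F
  rw [abs_mul, abs_of_nonneg (log_nonneg (by linarith))]
  have h1 : log (1 + y) ≤ y := by
    have := log_le_sub_one_of_pos (show 0 < 1 + y by linarith)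
    linarith
  have h2 : |sin (π * y)| ≤ 1 := abs_sin_le_one _
  have h3 : 0 ≤ log (1 + y) := log_nonneg (by linarith)
  nlinarith [abs_nonneg (sin (π * y))]

lemma abs_T_sub_le' (a b : ℝ) : |T a - T b| ≤ |a - b| / log 2 := by
  have key : ∀ a b : ℝ, log (max 1 a) - log (max 1 b) ≤ |a - b| := by
    intro a b
    have h1 : (1 : ℝ) ≤ max 1 a := le_max_left _ _
    have h2 : (1 : ℝ) ≤ max 1 b := le_max_left _ _
    rw [← log_div (by linarith) (by linarith)]
    refine (log_le_sub_one_of_pos (by apply div_pos <;> linarith)).trans ?_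
    rw [div_sub_one (by linarith)]
    have h3 : max 1 a - max 1 b ≤ |a - b| := by
      rcases max_cases 1 a with ⟨h, h'⟩ | ⟨h, h'⟩ <;> rcases max_cases 1 b with ⟨k, k'⟩ | ⟨k, k'⟩ <;>
        rw [h, k] <;> have := abs_nonneg (a - b) <;> have := le_abs_self (a - b) <;> linarith
    rw [div_le_iff₀ (by linarith)]
    nlinarith [abs_nonneg (a - b)]
  unfold T
  rw [← sub_div, abs_div, abs_of_pos log_two_pos]
  apply div_le_div_of_nonneg_right _ log_two_pos.le
  rw [abs_le]
  constructor
  · have := key b a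
    rw [abs_sub_comm] at this
    linarith
  · exact key a b

lemma T_le {a : ℝ} (ha : 1 ≤ a) : T a ≤ a / log 2 := by
  unfold T
  rw [max_eq_right ha]
  apply div_le_div_of_nonneg_right _ log_two_pos.le
  have := log_le_sub_one_of_pos (show 0 < a by linarith)
  linarith

lemma abs_log_add_sub_le {a u : ℝ} (ha : 0 < a) (hu : 0 ≤ u) : |log (a + u) - log a| ≤ u / a := by
  rw [← log_div (by linarith) ha.ne', abs_of_nonneg]
  · refine (log_le_sub_one_of_pos (by apply div_pos <;> linarith)).trans ?_
    rw [div_sub_one ha.ne']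
    apply le_of_eq
    congr 1
    ring
  · apply log_nonneg
    rw [le_div_iff₀ ha]
    linarith

lemma abs_osc_add_sub_le {a u : ℝ} (ha : 0 < a) (hu : 0 ≤ u) :
    |osc (a + u) - osc a| ≤ ((π * T (-log a) + 1) * (1 / a / log 2)) * u := by
  unfold osc
  refine (abs_F_sub_le (T_nonneg _) (T_nonneg _)).trans ?_
  rw [mul_assoc]
  apply mul_le_mul_of_nonneg_left
  · refine (abs_T_sub_le' _ _).trans ?_
    have h1 : |-log (a + u) - -log a| = |log (a + u) - log a| := by
      rw [← abs_neg]
      congr 1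
      ring
    rw [h1]
    have h2 := abs_log_add_sub_le ha hu
    calc |log (a + u) - log a| / log 2 ≤ (u / a) / log 2 :=
          div_le_div_of_nonneg_right h2 log_two_pos.le
      _ = 1 / a / log 2 * u := by ring
  · have := T_nonneg (-log a)
    positivity

lemma norm_path_add_sub_le {a : ℝ} (ha : 0 < a) :
    ∃ C : ℝ, ∀ u, 0 ≤ u → ‖path (a + u) - path a‖ ≤ C * u := by
  refine ⟨(π * T (-log a) + 1) * (1 / a / log 2) + |osc a| * (1 / a), fun u hu => ?_⟩
  have h1 : path (a + u) - path a =
      ((osc (a + u) - osc a : ℝ) : ℂ) * Complex.exp (Complex.I * (log (a + u) : ℝ)) +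
      (osc a : ℂ) * (Complex.exp (Complex.I * (log (a + u) : ℝ)) -
        Complex.exp (Complex.I * (log a : ℝ))) := by
    unfold path
    push_cast
    ring
  rw [h1]
  refine (norm_add_le _ _).trans ?_
  rw [add_mul]
  apply add_le_add
  · rw [norm_mul, mul_comm Complex.I, Complex.norm_exp_ofReal_mul_I, mul_one, Complex.norm_real,
      Real.norm_eq_abs]
    exact abs_osc_add_sub_le ha hu
  · rw [norm_mul, Complex.norm_real, Real.norm_eq_abs, mul_assoc]
    apply mul_le_mul_of_nonneg_left _ (abs_nonneg _)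
    have h2 : ‖Complex.exp (Complex.I * (log (a + u) : ℝ)) -
        Complex.exp (Complex.I * (log a : ℝ))‖ ≤ |log (a + u) - log a| := by
      have h3 := Real.norm_exp_I_mul_ofReal_sub_one_le (x := log (a + u) - log a)
      have h4 : Complex.exp (Complex.I * (log (a + u) : ℝ)) - Complex.exp (Complex.I * (log a : ℝ)) =
          Complex.exp (Complex.I * (log a : ℝ)) *
            (Complex.exp (Complex.I * ((log (a + u) - log a : ℝ) : ℂ)) - 1) := by
        rw [mul_sub, ← Complex.exp_add, mul_one]
        congr 2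
        push_cast
        ring
      rw [h4, norm_mul, mul_comm Complex.I ((log a : ℝ) : ℂ), Complex.norm_exp_ofReal_mul_I,
        one_mul]
      exact h3
    refine h2.trans ((abs_log_add_sub_le ha hu).trans (le_of_eq ?_))
    ring

lemma tendsto_path_pow (k : ℕ) : Tendsto (fun u : ℝ => ‖path u‖ ^ k * u) (𝓝[>] 0) (𝓝 0) := by
  have h1 : Tendsto (fun x : ℝ => log x ^ k / (1 * x + 0)) atTop (𝓝 0) :=
    Real.tendsto_pow_log_div_mul_add_atTop 1 0 k one_ne_zero
  have h2 := (h1.comp (tendsto_inv_nhdsGT_zero (𝕜 := ℝ))).const_mul ((1 / log 2) ^ k)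
  rw [mul_zero] at h2
  apply squeeze_zero' _ _ h2
  · filter_upwards [self_mem_nhdsWithin] with u hu
    have hu' : (0 : ℝ) < u := hu
    positivity
  · have h3 : ∀ᶠ u : ℝ in 𝓝[>] 0, 1 ≤ -log u := tendsto_neg_log.eventually_ge_atTop 1
    filter_upwards [h3, self_mem_nhdsWithin] with u hu1 hu2
    have hu0 : (0 : ℝ) < u := hu2
    simp only [Function.comp_apply, one_mul, add_zero, div_inv_eq_mul]
    rw [← mul_assoc]
    apply mul_le_mul_of_nonneg_right _ hu0.le
    rw [← mul_pow]
    apply pow_le_pow_left₀ (norm_nonneg _)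
    rw [norm_path]
    unfold osc
    refine (abs_F_le (T_nonneg _)).trans ((T_le hu1).trans (le_of_eq ?_))
    rw [log_inv]
    ring

/-- The path varies slowly. -/
lemma tendsto_pow_mul_sub {a : ℝ} (ha : 0 < a) (k : ℕ) :
    Tendsto (fun u : ℝ => path u ^ k * (path (a + u) - path a)) (𝓝[>] 0) (𝓝 0) := by
  obtain ⟨C, hC⟩ := norm_path_add_sub_le ha
  have h1 := (tendsto_path_pow k).const_mul C
  rw [mul_zero] at h1
  apply squeeze_zero_norm' _ h1
  filter_upwards [self_mem_nhdsWithin] with u hu
  have hu0 : (0 : ℝ) < u := hu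
  rw [norm_mul, norm_pow]
  calc ‖path u‖ ^ k * ‖path (a + u) - path a‖ ≤ ‖path u‖ ^ k * (C * u) :=
        mul_le_mul_of_nonneg_left (hC u hu0.le) (by positivity)
    _ = C * (‖path u‖ ^ k * u) := by ring

/-- The oscillating function hardly changes if its argument is multiplied by a bounded
factor. -/
lemma osc_slow {ε : ℝ} (hε : 0 < ε) : ∃ δ > 0, ∀ u, 0 < u → u < δ → ∀ v, 0 ≤ v → v ≤ 2 * π →
    |osc (u * exp (-v)) - osc u| < ε := by
  set B : ℝ := 2 * π with hB
  let g : ℝ → ℝ := fun a => (π * (log a / log 2) + 1) * ((2 * B / log 2) / a)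
  have hg : Tendsto g atTop (𝓝 0) := by
    have h1 : Tendsto (fun x : ℝ => log x / x) atTop (𝓝 0) := by
      have := Real.tendsto_pow_log_div_mul_add_atTop 1 0 1 one_ne_zero
      simpa using this
    have h2 : Tendsto (fun x : ℝ => 1 / x) atTop (𝓝 0) := by
      simpa using tendsto_inv_atTop_zero (𝕜 := ℝ)
    have h3 : g = fun a => (π / log 2 * (2 * B / log 2)) * (log a / a) +
        (2 * B / log 2) * (1 / a) := by
      funext a
      simp only [g]
      ring
    rw [h3]
    simpa using (h1.const_mul (π / log 2 * (2 * B / log 2))).add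
      (h2.const_mul (2 * B / log 2))
  have h1 : ∀ᶠ u in 𝓝[>] (0 : ℝ), 2 * B + 2 ≤ -log u ∧ g (-log u) < ε :=
    (tendsto_neg_log.eventually_ge_atTop _).and
      ((hg.comp tendsto_neg_log).eventually (gt_mem_nhds hε))
  obtain ⟨δ, hδ, h2⟩ := mem_nhdsGT_iff_exists_Ioo_subset.1 h1
  refine ⟨δ, hδ, fun u hu0 huδ v hv0 hv => ?_⟩
  obtain ⟨h3, h4⟩ := h2 ⟨hu0, huδ⟩
  refine lt_of_le_of_lt ?_ h4
  unfold osc
  refine (abs_F_sub_le (T_nonneg _) (T_nonneg _)).trans ?_
  have h5 : T (-log u) = log (-log u) / log 2 := by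
    unfold T
    rw [max_eq_right]
    have : 0 < B := by positivity
    linarith
  have h6 : -log (u * exp (-v)) = -log u - (-v) := by
    rw [log_mul hu0.ne' (exp_pos _).ne', log_exp]
    ring
  have h7 : |-v| ≤ B := by
    rw [abs_neg, abs_of_nonneg hv0]
    exact hv
  have h8 := abs_T_sub_le h7 h3
  rw [h6]
  simp only [g]
  rw [← h5]
  have h9 : 0 ≤ T (-log u) := T_nonneg _
  exact mul_le_mul_of_nonneg_left h8 (by positivity)

/-- The path is dense in the complex plane near zero. -/
lemma frequently_path (N : Set ℂ) (hN : IsOpen N) (hne : N.Nonempty) :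
    ∃ᶠ u in 𝓝[>] 0, path u ∈ N := by
  obtain ⟨w, hw⟩ := hne
  obtain ⟨ε, hε, hball⟩ := Metric.isOpen_iff.1 hN w hw
  rw [frequently_nhdsWithin_iff, Metric.nhds_basis_ball.frequently_iff]
  intro δ hδ
  obtain ⟨δ', hδ', hslow⟩ := osc_slow hε
  obtain ⟨u, hu0, huδ, hu⟩ := exists_osc_eq ‖w‖ (min δ δ') (lt_min hδ hδ')
  -- adjust the argument
  set θ : ℝ := log u - Complex.arg w with hθ
  set n : ℤ := ⌊θ / (2 * π)⌋ with hn
  set v : ℝ := θ - n * (2 * π) with hv
  have hpi : 0 < 2 * π := by positivity
  have hv0 : 0 ≤ v := by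
    have h1 := Int.floor_le (θ / (2 * π))
    rw [← hn, le_div_iff₀ hpi] at h1
    linarith
  have hv1 : v ≤ 2 * π := by
    have h1 := Int.lt_floor_add_one (θ / (2 * π))
    rw [← hn, div_lt_iff₀ hpi] at h1
    linarith
  have hpos : 0 < u * exp (-v) := by positivity
  refine ⟨u * exp (-v), ?_, ?_, hpos⟩
  · rw [Metric.mem_ball, dist_zero_right, Real.norm_eq_abs, abs_of_pos hpos]
    have h1 : exp (-v) ≤ 1 := by
      rw [exp_le_one_iff]
      linarith
    calc u * exp (-v) ≤ u * 1 := mul_le_mul_of_nonneg_left h1 hu0.le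
      _ < δ := by
        rw [mul_one]
        exact huδ.trans_le (min_le_left _ _)
  · apply hball
    rw [Metric.mem_ball, Complex.dist_eq]
    have h1 : Complex.exp (Complex.I * (log (u * exp (-v)) : ℝ)) =
        Complex.exp (Complex.I * (Complex.arg w : ℝ)) := by
      have h2 : log (u * exp (-v)) = Complex.arg w + n * (2 * π) := by
        rw [log_mul hu0.ne' (exp_pos _).ne', log_exp, hv, hθ]
        ring
      rw [h2]
      have h3 : Complex.I * ((Complex.arg w + n * (2 * π) : ℝ) : ℂ) =
          Complex.I * (Complex.arg w : ℝ) + n * (2 * π * Complex.I) := by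
        push_cast
        ring
      rw [h3, Complex.exp_add, Complex.exp_int_mul_two_pi_mul_I, mul_one]
    have h2 : w = (‖w‖ : ℂ) * Complex.exp (Complex.I * (Complex.arg w : ℝ)) := by
      rw [mul_comm Complex.I]
      exact (Complex.norm_mul_exp_arg_mul_I w).symm
    have h3 : path (u * exp (-v)) - w =
        ((osc (u * exp (-v)) - osc u : ℝ) : ℂ) * Complex.exp (Complex.I * (Complex.arg w : ℝ)) := by
      conv_lhs => rw [h2]
      unfold path
      rw [h1, hu]
      push_cast
      ring
    rw [h3, norm_mul, mul_comm Complex.I, Complex.norm_exp_ofReal_mul_I, mul_one,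
      Complex.norm_real, Real.norm_eq_abs]
    exact hslow u hu0 (huδ.trans_le (min_le_right _ _)) v hv0 hv1

/-! ### Polynomials -/

open Polynomial in
lemma tendsto_poly {a : ℝ} (ha : 0 < a) (p P : ℂ[X]) :
    Tendsto (fun u : ℝ => p.eval (path u) * (P.eval (path (a + u)) - P.eval (path a)))
      (𝓝[>] 0) (𝓝 0) := by
  obtain ⟨Q, hQ⟩ := X_sub_C_dvd_sub_C_eval (a := path a) (p := P)
  have h1 : ∀ t : ℂ, P.eval t - P.eval (path a) = (t - path a) * Q.eval t := by
    intro t
    have := congrArg (eval t) hQ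
    simpa using this
  have h2 : Tendsto (fun u : ℝ => Q.eval (path (a + u))) (𝓝[>] 0) (𝓝 (Q.eval (path a))) := by
    apply (Q.continuous.tendsto _).comp
    have h3 : ContinuousAt path (a + 0) := by
      rw [add_zero]
      exact continuousOn_path.continuousAt (Ioi_mem_nhds ha)
    have h4 : Tendsto (fun u : ℝ => a + u) (𝓝[>] 0) (𝓝 (a + 0)) := by
      have h5 : Continuous fun u : ℝ => a + u := by fun_prop
      exact (h5.tendsto 0).mono_left nhdsWithin_le_nhds
    have h6 := h3.tendsto.comp h4
    rw [add_zero] at h6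
    exact h6
  have h3 : Tendsto (fun u : ℝ => p.eval (path u) * (path (a + u) - path a)) (𝓝[>] 0) (𝓝 0) := by
    have h4 : ∀ u : ℝ, p.eval (path u) * (path (a + u) - path a) =
        ∑ i ∈ Finset.range (p.natDegree + 1),
          p.coeff i * (path u ^ i * (path (a + u) - path a)) := by
      intro u
      rw [eval_eq_sum_range, Finset.sum_mul]
      apply Finset.sum_congr rfl
      intro i _
      ring
    simp only [h4]
    have h5 := tendsto_finsetSum (Finset.range (p.natDegree + 1)) fun i _ =>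
      (tendsto_pow_mul_sub ha i).const_mul (p.coeff i)
    simpa using h5
  have h4 := h3.mul h2
  rw [zero_mul] at h4
  refine h4.congr fun u => ?_
  rw [h1]
  ring

end Q178.HNS
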