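import Mathlib

set_option autoImplicit false

/-!
The two-sphere as the space of hermitian matrices of trace one and determinant zero, with the
action of the special linear group.
-/

namespace Q178.HNS

open Set Filter Topology Matrix

/-- The special linear group. -/
abbrev SL : Type := Matrix.SpecialLinearGroup (Fin 2) ℂ

/-- The underlying matrix. -/
def mat (g : SL) : Matrix (Fin 2) (Fin 2) ℂ := g

lemma mat_mul (g g' : SL) : mat (g * g') = mat g * mat g' :=
  Matrix.SpecialLinearGroup.coe_mul g g'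

lemma mat_one : mat 1 = 1 := Matrix.SpecialLinearGroup.coe_one

lemma continuous_mat : Continuous mat := continuous_subtype_val

/-- Hermitian matrices of trace one and determinant zero. -/
def Herm : Type := {H : Matrix (Fin 2) (Fin 2) ℂ // Hᴴ = H ∧ H.trace = 1 ∧ H.det = 0}

noncomputable instance : TopologicalSpace Herm :=
  inferInstanceAs (TopologicalSpace {H : Matrix (Fin 2) (Fin 2) ℂ //
    Hᴴ = H ∧ H.trace = 1 ∧ H.det = 0})

instance : T2Space Herm :=
  inferInstanceAs (T2Space {H : Matrix (Fin 2) (Fin 2) ℂ // Hᴴ = H ∧ H.trace = 1 ∧ H.det = 0})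

lemma Herm.ext' {H K : Herm} (h : H.1 = K.1) : H = K := Subtype.ext h

lemma trace_ne_zero {K : Matrix (Fin 2) (Fin 2) ℂ} (h1 : Kᴴ = K) (h2 : K.det = 0) (h3 : K ≠ 0) :
    K.trace ≠ 0 := by
  intro h
  apply h3
  have e00 : star (K 0 0) = K 0 0 := by
    have := congrFun (congrFun h1 0) 0
    simpa [conjTranspose_apply] using this
  have e10 : star (K 0 1) = K 1 0 := by
    have := congrFun (congrFun h1 1) 0
    simpa [conjTranspose_apply] using this
  rw [trace_fin_two] at h
  rw [det_fin_two] at h2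
  have h11 : K 1 1 = -K 0 0 := by linear_combination h
  rw [h11, ← e10] at h2
  have h4 : (Complex.normSq (K 0 0) : ℂ) + Complex.normSq (K 0 1) = 0 := by
    rw [Complex.normSq_eq_conj_mul_self, Complex.normSq_eq_conj_mul_self]
    have e00' : (starRingEnd ℂ) (K 0 0) = K 0 0 := e00
    rw [e00']
    have e : (starRingEnd ℂ) (K 0 1) = star (K 0 1) := rfl
    rw [e]
    linear_combination -h2
  have h5 : Complex.normSq (K 0 0) + Complex.normSq (K 0 1) = 0 := by exact_mod_cast h4
  have h6 := Complex.normSq_nonneg (K 0 0)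
  have h7 := Complex.normSq_nonneg (K 0 1)
  have h8 : K 0 0 = 0 := Complex.normSq_eq_zero.1 (by linarith)
  have h9 : K 0 1 = 0 := Complex.normSq_eq_zero.1 (by linarith)
  ext i j
  fin_cases i <;> fin_cases j
  · exact h8
  · exact h9
  · change K 1 0 = 0
    rw [← e10, h9, star_zero]
  · change K 1 1 = 0
    rw [h11, h8, neg_zero]

lemma star_trace {K : Matrix (Fin 2) (Fin 2) ℂ} (h1 : Kᴴ = K) : star K.trace = K.trace := by
  conv_rhs => rw [← h1]
  rw [trace_conjTranspose]

/-- Normalization of a matrix. -/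
noncomputable def nrm (K : Matrix (Fin 2) (Fin 2) ℂ) (h1 : Kᴴ = K) (h2 : K.det = 0) (h3 : K ≠ 0) :
    Herm :=
  ⟨K.trace⁻¹ • K, by
    rw [conjTranspose_smul, h1, star_inv₀, star_trace h1], by
    rw [trace_smul, smul_eq_mul, inv_mul_cancel₀ (trace_ne_zero h1 h2 h3)], by
    rw [det_smul, h2, mul_zero]⟩

lemma Herm.ne_zero (H : Herm) : H.1 ≠ 0 := by
  intro h
  have := H.2.2.1
  rw [h, trace_zero] at this
  exact zero_ne_one this

lemma conj_hermitian (g : SL) {K : Matrix (Fin 2) (Fin 2) ℂ} (h1 : Kᴴ = K) :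
    (mat g * K * (mat g)ᴴ)ᴴ = mat g * K * (mat g)ᴴ := by
  rw [conjTranspose_mul, conjTranspose_mul, conjTranspose_conjTranspose, h1, mul_assoc]

lemma conj_det (g : SL) {K : Matrix (Fin 2) (Fin 2) ℂ} (h2 : K.det = 0) :
    (mat g * K * (mat g)ᴴ).det = 0 := by
  rw [det_mul, det_mul, h2, mul_zero, zero_mul]

lemma inv_mul_self' (g : SL) : mat g⁻¹ * mat g = 1 := by
  rw [← mat_mul, inv_mul_cancel, mat_one]

lemma conj_ne_zero (g : SL) {K : Matrix (Fin 2) (Fin 2) ℂ} (h3 : K ≠ 0) :
    mat g * K * (mat g)ᴴ ≠ 0 := by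
  intro h
  apply h3
  have h4 : mat g⁻¹ * (mat g * K * (mat g)ᴴ) * (mat g⁻¹)ᴴ = K := by
    have h5 : (mat g)ᴴ * (mat g⁻¹)ᴴ = 1 := by
      rw [← conjTranspose_mul, inv_mul_self', conjTranspose_one]
    calc mat g⁻¹ * (mat g * K * (mat g)ᴴ) * (mat g⁻¹)ᴴ
        = (mat g⁻¹ * mat g) * K * ((mat g)ᴴ * (mat g⁻¹)ᴴ) := by
          simp only [mul_assoc]
      _ = K := by rw [h5, inv_mul_self', one_mul, mul_one]
  rw [← h4, h, mul_zero, zero_mul]

noncomputable instance : SMul SL Herm :=
  ⟨fun g H => nrm (mat g * H.1 * (mat g)ᴴ) (conj_hermitian g H.2.1) (conj_det g H.2.2.2)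
    (conj_ne_zero g H.ne_zero)⟩

lemma smul_val (g : SL) (H : Herm) :
    (g • H).1 = (mat g * H.1 * (mat g)ᴴ).trace⁻¹ • (mat g * H.1 * (mat g)ᴴ) := rfl

lemma trace_conj_ne_zero (g : SL) (H : Herm) : (mat g * H.1 * (mat g)ᴴ).trace ≠ 0 :=
  trace_ne_zero (conj_hermitian g H.2.1) (conj_det g H.2.2.2) (conj_ne_zero g H.ne_zero)

noncomputable instance : MulAction SL Herm where
  one_smul H := by
    apply Herm.ext'
    rw [smul_val, mat_one, conjTranspose_one, one_mul, mul_one, H.2.2.1, inv_one, one_smul]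
  mul_smul g g' H := by
    apply Herm.ext'
    rw [smul_val, smul_val, smul_val]
    have h1 : mat (g * g') * H.1 * (mat (g * g'))ᴴ = mat g * (mat g' * H.1 * (mat g')ᴴ) * (mat g)ᴴ := by
      rw [mat_mul, conjTranspose_mul]
      simp only [mul_assoc]
    rw [h1]
    set K := mat g' * H.1 * (mat g')ᴴ with hK
    have hK0 : K.trace ≠ 0 := trace_conj_ne_zero g' H
    rw [mul_smul_comm, smul_mul_assoc, trace_smul, smul_smul]
    congr 1
    have key : ∀ x y : ℂ, x ≠ 0 → y⁻¹ = (x⁻¹ * y)⁻¹ * x⁻¹ := by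
      intro x y hx
      rw [mul_inv, inv_inv, mul_comm x, mul_assoc, mul_inv_cancel₀ hx, mul_one]
    exact key _ _ hK0

lemma continuous_smul' : Continuous fun p : SL × Herm => p.1 • p.2 := by
  have h1 : Continuous fun p : SL × Herm => mat p.1 * p.2.1 * (mat p.1)ᴴ := by
    have hg : Continuous fun p : SL × Herm => mat p.1 := continuous_mat.comp continuous_fst
    have hH : Continuous fun p : SL × Herm => (p.2.1 : Matrix (Fin 2) (Fin 2) ℂ) :=
      continuous_subtype_val.comp continuous_snd
    exact (hg.matrix_mul hH).matrix_mul hg.matrix_conjTranspose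
  have h2 : Continuous fun p : SL × Herm => (mat p.1 * p.2.1 * (mat p.1)ᴴ).trace := h1.matrix_trace
  exact ((h2.inv₀ fun p => trace_conj_ne_zero p.1 p.2).smul h1).subtype_mk _

/-! ### Points from vectors -/

/-- The rank one matrix of a vector. -/
noncomputable def rk (v : Fin 2 → ℂ) : Matrix (Fin 2) (Fin 2) ℂ := vecMulVec v (star v)

lemma rk_hermitian (v : Fin 2 → ℂ) : (rk v)ᴴ = rk v := by
  ext i j
  simp [rk, vecMulVec_apply, conjTranspose_apply, mul_comm]

lemma rk_det (v : Fin 2 → ℂ) : (rk v).det = 0 := by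
  rw [det_fin_two]
  simp [rk, vecMulVec_apply]
  ring

lemma rk_ne_zero {v : Fin 2 → ℂ} (hv : v ≠ 0) : rk v ≠ 0 := by
  intro h
  apply hv
  funext i
  have h1 := congrFun (congrFun h i) i
  simp only [rk, vecMulVec_apply, Pi.star_apply, Matrix.zero_apply] at h1
  rcases mul_eq_zero.1 h1 with h2 | h2
  · exact h2
  · exact star_eq_zero.1 h2

/-- The point of a nonzero vector. -/
noncomputable def pt (v : Fin 2 → ℂ) (hv : v ≠ 0) : Herm :=
  nrm (rk v) (rk_hermitian v) (rk_det v) (rk_ne_zero hv)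

lemma mulVec_ne_zero' (g : SL) {v : Fin 2 → ℂ} (hv : v ≠ 0) : mat g *ᵥ v ≠ 0 := by
  intro h
  apply hv
  have : mat g⁻¹ *ᵥ (mat g *ᵥ v) = v := by rw [mulVec_mulVec, inv_mul_self', one_mulVec]
  rw [← this, h, mulVec_zero]

lemma rk_mulVec (g : SL) (v : Fin 2 → ℂ) : rk (mat g *ᵥ v) = mat g * rk v * (mat g)ᴴ := by
  unfold rk
  rw [mul_vecMulVec, vecMulVec_mul, star_mulVec]

lemma smul_pt (g : SL) (v : Fin 2 → ℂ) (hv : v ≠ 0) :
    g • pt v hv = pt (mat g *ᵥ v) (mulVec_ne_zero' g hv) := by
  apply Herm.ext'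
  rw [smul_val]
  change (mat g * ((rk v).trace⁻¹ • rk v) * (mat g)ᴴ).trace⁻¹ • (mat g * ((rk v).trace⁻¹ • rk v) * (mat g)ᴴ) =
    (rk (mat g *ᵥ v)).trace⁻¹ • rk (mat g *ᵥ v)
  have h0 : (rk v).trace ≠ 0 := trace_ne_zero (rk_hermitian v) (rk_det v) (rk_ne_zero hv)
  rw [rk_mulVec, mul_smul_comm, smul_mul_assoc, trace_smul, smul_smul]
  congr 1
  rw [smul_eq_mul, mul_inv, inv_inv, mul_comm, ← mul_assoc, inv_mul_cancel₀ h0, one_mul]

lemma pt_smul (v : Fin 2 → ℂ) (hv : v ≠ 0) (c : ℂ) (hc : c ≠ 0) :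
    pt (c • v) (smul_ne_zero hc hv) = pt v hv := by
  apply Herm.ext'
  change (rk (c • v)).trace⁻¹ • rk (c • v) = (rk v).trace⁻¹ • rk v
  have h1 : rk (c • v) = (c * star c) • rk v := by
    unfold rk
    rw [star_smul, smul_vecMulVec, vecMulVec_smul, smul_smul]
  have h2 : c * star c ≠ 0 := mul_ne_zero hc (star_ne_zero.2 hc)
  rw [h1, trace_smul, smul_smul, smul_eq_mul, mul_inv, mul_comm, ← mul_assoc,
    mul_inv_cancel₀ h2, one_mul]

/-- Proportional vectors define the same point. -/
lemma pt_eq {v w : Fin 2 → ℂ} (hv : v ≠ 0) (hw : w ≠ 0) (h : v 0 * w 1 = v 1 * w 0) :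
    pt v hv = pt w hw := by
  by_cases h0 : w 0 = 0
  · have hw1 : w 1 ≠ 0 := by
      intro h1
      apply hw
      funext i
      fin_cases i
      · exact h0
      · exact h1
    have hv0 : v 0 = 0 := by
      rw [h0, mul_zero] at h
      exact (mul_eq_zero.1 h).resolve_right hw1
    have hv1 : v 1 ≠ 0 := by
      intro h1
      apply hv
      funext i
      fin_cases i
      · exact hv0
      · exact h1
    have h2 : v = (v 1 / w 1) • w := by
      funext i
      fin_cases i
      · change v 0 = (v 1 / w 1) * w 0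
        rw [hv0, h0, mul_zero]
      · change v 1 = (v 1 / w 1) * w 1
        field_simp
    have h3 := pt_smul w hw (v 1 / w 1) (div_ne_zero hv1 hw1)
    rw [← h3]
    congr 1
  · have hv0 : v 0 ≠ 0 := by
      intro h1
      apply hv
      rw [h1, zero_mul] at h
      funext i
      fin_cases i
      · exact h1
      · exact ((mul_eq_zero.1 h.symm).resolve_right h0)
    have h2 : v = (v 0 / w 0) • w := by
      funext i
      fin_cases i
      · change v 0 = (v 0 / w 0) * w 0
        field_simp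
      · change v 1 = (v 0 / w 0) * w 1
        field_simp
        linear_combination -h
    have h3 := pt_smul w hw (v 0 / w 0) (div_ne_zero hv0 h0)
    rw [← h3]
    congr 1

/-- Every point comes from a vector. -/
lemma exists_pt (H : Herm) : ∃ (v : Fin 2 → ℂ) (hv : v ≠ 0), H = pt v hv := by
  obtain ⟨H, h1, h2, h3⟩ := H
  have e00 : star (H 0 0) = H 0 0 := by
    have := congrFun (congrFun h1 0) 0
    simpa [conjTranspose_apply] using this
  have e11 : star (H 1 1) = H 1 1 := by
    have := congrFun (congrFun h1 1) 1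
    simpa [conjTranspose_apply] using this
  have e10 : star (H 0 1) = H 1 0 := by
    have := congrFun (congrFun h1 1) 0
    simpa [conjTranspose_apply] using this
  have e01 : star (H 1 0) = H 0 1 := by
    rw [← e10, star_star]
  rw [trace_fin_two] at h2
  rw [det_fin_two] at h3
  by_cases h : H 0 0 = 0
  · have h11 : H 1 1 = 1 := by linear_combination h2 - h
    have h4 : H 0 1 * star (H 0 1) = 0 := by
      rw [e10]
      linear_combination -h3 + H 1 1 * h
    have h01 : H 0 1 = 0 := by
      rcases mul_eq_zero.1 h4 with h5 | h5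
      · exact h5
      · exact star_eq_zero.1 h5
    have h10 : H 1 0 = 0 := by rw [← e10, h01, star_zero]
    have hv : (![0, 1] : Fin 2 → ℂ) ≠ 0 := by
      intro h5
      have := congrFun h5 1
      simp at this
    refine ⟨![0, 1], hv, ?_⟩
    apply Herm.ext'
    change H = (rk ![0, 1]).trace⁻¹ • rk ![0, 1]
    have h6 : (rk ![0, 1]).trace = 1 := by
      rw [trace_fin_two]
      simp [rk, vecMulVec_apply]
    rw [h6, inv_one, one_smul]
    ext i j
    fin_cases i <;> fin_cases j
    · simpa [rk, vecMulVec_apply] using h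
    · simpa [rk, vecMulVec_apply] using h01
    · simpa [rk, vecMulVec_apply] using h10
    · simpa [rk, vecMulVec_apply] using h11
  · have hv : (![H 0 0, H 1 0] : Fin 2 → ℂ) ≠ 0 := by
      intro h5
      have := congrFun h5 0
      exact h (by simpa using this)
    refine ⟨![H 0 0, H 1 0], hv, ?_⟩
    apply Herm.ext'
    change H = (rk ![H 0 0, H 1 0]).trace⁻¹ • rk ![H 0 0, H 1 0]
    have h6 : (rk ![H 0 0, H 1 0]).trace = H 0 0 := by
      rw [trace_fin_two]
      simp only [rk, vecMulVec_apply, Pi.star_apply, cons_val_zero, cons_val_one]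
      rw [e00, e01]
      linear_combination -h3 + H 0 0 * h2
    rw [h6]
    have key : ∀ i j, H i j = (H 0 0)⁻¹ * (rk ![H 0 0, H 1 0]) i j := by
      intro i j
      rw [eq_inv_mul_iff_mul_eq₀ h]
      fin_cases i <;> fin_cases j
      · change H 0 0 * H 0 0 = H 0 0 * star (H 0 0)
        rw [e00]
      · change H 0 0 * H 0 1 = H 0 0 * star (H 1 0)
        rw [e01]
      · change H 0 0 * H 1 0 = H 1 0 * star (H 0 0)
        rw [e00, mul_comm]
      · change H 0 0 * H 1 1 = H 1 0 * star (H 1 0)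
        rw [e01]
        linear_combination h3
    ext i j
    exact key i j

/-- The action is transitive. -/
lemma exists_smul_eq (H K : Herm) : ∃ g : SL, g • H = K := by
  have hv0 : (![1, 0] : Fin 2 → ℂ) ≠ 0 := by
    intro h5
    have := congrFun h5 0
    simp at this
  have key : ∀ H : Herm, ∃ g : SL, g • pt ![1, 0] hv0 = H := by
    intro H
    obtain ⟨v, hv, rfl⟩ := exists_pt H
    by_cases h0 : v 0 = 0
    · have h1 : v 1 ≠ 0 := by
        intro h1
        apply hv
        funext i
        fin_cases i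
        · exact h0
        · exact h1
      let g : SL := ⟨!![v 0, -(v 1)⁻¹; v 1, 0], by
        rw [det_fin_two_of]
        field_simp
        ring⟩
      refine ⟨g, ?_⟩
      rw [smul_pt]
      congr 1
      funext i
      have hg : mat g = !![v 0, -(v 1)⁻¹; v 1, 0] := rfl
      rw [hg]
      fin_cases i
      · simp [mulVec, dotProduct]
      · simp [mulVec, dotProduct]
    · let g : SL := ⟨!![v 0, 0; v 1, (v 0)⁻¹], by
        rw [det_fin_two_of]
        field_simp
        ring⟩
      refine ⟨g, ?_⟩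
      rw [smul_pt]
      congr 1
      funext i
      have hg : mat g = !![v 0, 0; v 1, (v 0)⁻¹] := rfl
      rw [hg]
      fin_cases i
      · simp [mulVec, dotProduct]
      · simp [mulVec, dotProduct]
  obtain ⟨g, hg⟩ := key H
  obtain ⟨g', hg'⟩ := key K
  exact ⟨g' * g⁻¹, by rw [mul_smul, ← hg, inv_smul_smul, hg']⟩

/-! ### The homeomorphism with the sphere -/

/-- The two-sphere. -/
abbrev S2 : Type := Metric.sphere (0 : EuclideanSpace ℝ (Fin 3)) 1

lemma norm_sq_fin_three (x : EuclideanSpace ℝ (Fin 3)) :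
    ‖x‖ ^ 2 = x 0 ^ 2 + x 1 ^ 2 + x 2 ^ 2 := by
  rw [EuclideanSpace.norm_sq_eq, Fin.sum_univ_three]
  simp [Real.norm_eq_abs, sq_abs]

lemma mem_S2 (x : EuclideanSpace ℝ (Fin 3)) :
    x ∈ Metric.sphere (0 : EuclideanSpace ℝ (Fin 3)) 1 ↔ x 0 ^ 2 + x 1 ^ 2 + x 2 ^ 2 = 1 := by
  rw [mem_sphere_zero_iff_norm, ← norm_sq_fin_three]
  constructor
  · intro h
    rw [h]
    norm_num
  · intro h
    have h1 := norm_nonneg x
    nlinarith

/-- The vector of a hermitian matrix. -/
noncomputable def toVec (H : Matrix (Fin 2) (Fin 2) ℂ) : EuclideanSpace ℝ (Fin 3) :=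
  !₂[2 * (H 0 1).re, 2 * (H 0 1).im, (H 0 0).re - (H 1 1).re]

/-- The hermitian matrix of a vector. -/
noncomputable def ofVec (x : EuclideanSpace ℝ (Fin 3)) : Matrix (Fin 2) (Fin 2) ℂ :=
  !![((1 + x 2) / 2 : ℝ), ⟨x 0 / 2, x 1 / 2⟩; ⟨x 0 / 2, -(x 1 / 2)⟩, ((1 - x 2) / 2 : ℝ)]

lemma entries (H : Herm) : (H.1 0 0).im = 0 ∧ (H.1 1 1).im = 0 ∧
    (H.1 1 0).re = (H.1 0 1).re ∧ (H.1 1 0).im = -(H.1 0 1).im ∧
    (H.1 0 0).re + (H.1 1 1).re = 1 ∧
    (H.1 0 0).re * (H.1 1 1).re = (H.1 0 1).re ^ 2 + (H.1 0 1).im ^ 2 := by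
  obtain ⟨H, h1, h2, h3⟩ := H
  have e00 : star (H 0 0) = H 0 0 := by
    have := congrFun (congrFun h1 0) 0
    simpa [conjTranspose_apply] using this
  have e11 : star (H 1 1) = H 1 1 := by
    have := congrFun (congrFun h1 1) 1
    simpa [conjTranspose_apply] using this
  have e10 : star (H 0 1) = H 1 0 := by
    have := congrFun (congrFun h1 1) 0
    simpa [conjTranspose_apply] using this
  have i00 := congrArg Complex.im e00
  have i11 := congrArg Complex.im e11
  have r10 := congrArg Complex.re e10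
  have i10 := congrArg Complex.im e10
  simp only [Complex.star_def, Complex.conj_im, Complex.conj_re] at i00 i11 r10 i10
  rw [trace_fin_two] at h2
  rw [det_fin_two] at h3
  have r2 := congrArg Complex.re h2
  have r3 := congrArg Complex.re h3
  simp only [Complex.add_re, Complex.one_re, Complex.sub_re, Complex.mul_re, Complex.zero_re]
    at r2 r3
  have j00 : (H 0 0).im = 0 := by linarith
  have j11 : (H 1 1).im = 0 := by linarith
  refine ⟨j00, j11, r10.symm, i10.symm, r2, ?_⟩
  change (H 0 0).re * (H 1 1).re = (H 0 1).re ^ 2 + (H 0 1).im ^ 2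
  rw [j00, ← r10, ← i10] at r3
  linarith

/-- The space of matrices is the two-sphere. -/
noncomputable def hermHomeo : Herm ≃ₜ S2 where
  toFun H := ⟨toVec H.1, by
    rw [mem_S2]
    obtain ⟨h1, h2, h3, h4, h5, h6⟩ := entries H
    change (2 * (H.1 0 1).re) ^ 2 + (2 * (H.1 0 1).im) ^ 2 +
      ((H.1 0 0).re - (H.1 1 1).re) ^ 2 = 1
    have h7 : (H.1 1 1).re = 1 - (H.1 0 0).re := by linarith
    rw [h7] at h6 ⊢
    linarith⟩
  invFun x := ⟨ofVec x.1, by
    ext i j
    fin_cases i <;> fin_cases j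
    · simp [ofVec, conjTranspose_apply]
    · apply Complex.ext <;> simp [ofVec, conjTranspose_apply]
    · apply Complex.ext <;> simp [ofVec, conjTranspose_apply]
    · simp [ofVec, conjTranspose_apply], by
    rw [trace_fin_two]
    simp only [ofVec, of_apply, cons_val', cons_val_zero, cons_val_fin_one, cons_val_one]
    push_cast
    ring, by
    have hx := (mem_S2 x.1).1 x.2
    rw [ofVec, det_fin_two_of]
    apply Complex.ext
    · simp only [Complex.sub_re, Complex.mul_re, Complex.ofReal_re, Complex.ofReal_im,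
        Complex.zero_re]
      linarith
    · simp only [Complex.sub_im, Complex.mul_im, Complex.ofReal_re, Complex.ofReal_im,
        Complex.zero_im]
      ring⟩
  left_inv H := by
    obtain ⟨h1, h2, h3, h4, h5, h6⟩ := entries H
    apply Herm.ext'
    change ofVec (toVec H.1) = H.1
    ext i j
    fin_cases i <;> fin_cases j
    · change (((1 + ((H.1 0 0).re - (H.1 1 1).re)) / 2 : ℝ) : ℂ) = H.1 0 0
      apply Complex.ext
      · rw [Complex.ofReal_re]
        linarith
      · rw [Complex.ofReal_im, h1]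
    · change (⟨2 * (H.1 0 1).re / 2, 2 * (H.1 0 1).im / 2⟩ : ℂ) = H.1 0 1
      apply Complex.ext
      · change 2 * (H.1 0 1).re / 2 = (H.1 0 1).re
        ring
      · change 2 * (H.1 0 1).im / 2 = (H.1 0 1).im
        ring
    · change (⟨2 * (H.1 0 1).re / 2, -(2 * (H.1 0 1).im / 2)⟩ : ℂ) = H.1 1 0
      apply Complex.ext
      · change 2 * (H.1 0 1).re / 2 = (H.1 1 0).re
        rw [h3]
        ring
      · change -(2 * (H.1 0 1).im / 2) = (H.1 1 0).im
        rw [h4]
        ring
    · change (((1 - ((H.1 0 0).re - (H.1 1 1).re)) / 2 : ℝ) : ℂ) = H.1 1 1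
      apply Complex.ext
      · rw [Complex.ofReal_re]
        linarith
      · rw [Complex.ofReal_im, h2]
  right_inv x := by
    apply Subtype.ext
    change toVec (ofVec x.1) = x.1
    ext i
    fin_cases i
    · change 2 * (x.1 0 / 2) = x.1 0
      ring
    · change 2 * (x.1 1 / 2) = x.1 1
      ring
    · change (((1 + x.1 2) / 2 : ℝ) : ℂ).re - (((1 - x.1 2) / 2 : ℝ) : ℂ).re = x.1 2
      rw [Complex.ofReal_re, Complex.ofReal_re]
      ring
  continuous_toFun := by
    apply Continuous.subtype_mk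
    have h : ∀ i j, Continuous fun H : Herm => H.1 i j := fun i j =>
      continuous_subtype_val.matrix_elem i j
    unfold toVec
    apply (PiLp.continuous_toLp 2 _).comp
    apply continuous_pi
    intro i
    fin_cases i
    · exact continuous_const.mul (Complex.continuous_re.comp (h 0 1))
    · exact continuous_const.mul (Complex.continuous_im.comp (h 0 1))
    · exact (Complex.continuous_re.comp (h 0 0)).sub (Complex.continuous_re.comp (h 1 1))
  continuous_invFun := by
    apply Continuous.subtype_mk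
    have h : ∀ i, Continuous fun x : S2 => x.1 i := fun i => by fun_prop
    have h2 : ∀ f g : S2 → ℝ, Continuous f → Continuous g →
        Continuous fun x => (⟨f x, g x⟩ : ℂ) := by
      intro f g hf hg
      exact Complex.equivRealProdCLM.symm.continuous.comp (hf.prodMk hg)
    apply continuous_matrix
    intro i j
    fin_cases i <;> fin_cases j
    · exact Complex.continuous_ofReal.comp ((continuous_const.add (h 2)).div_const 2)
    · exact h2 _ _ ((h 0).div_const 2) ((h 1).div_const 2)
    · exact h2 _ _ ((h 0).div_const 2) ((h 1).div_const 2).neg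
    · exact Complex.continuous_ofReal.comp ((continuous_const.sub (h 2)).div_const 2)

end Q178.HNS
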