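import Pool.Agent.Q178.HNS.Main
import Pool.Agent.Q178.HNS.Path
import Pool.Agent.Q178.HNS.Sphere

set_option autoImplicit false

/-!
The action of polynomial matrices on the sphere.
-/

namespace Q178.HNS

open Set Filter Topology Matrix Polynomial

/-- The special linear group over the polynomial ring. -/
abbrev PSL : Type := Matrix.SpecialLinearGroup (Fin 2) ℂ[X]

/-- Evaluation of a polynomial matrix. -/
noncomputable def evl (t : ℂ) : PSL →* SL := Matrix.SpecialLinearGroup.map (evalRingHom t)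

/-- Constant matrices. -/
noncomputable def cst : SL →* PSL := Matrix.SpecialLinearGroup.map C

/-- The entries of a polynomial matrix. -/
def pm (γ : PSL) : Matrix (Fin 2) (Fin 2) ℂ[X] := γ

lemma mat_evl (t : ℂ) (γ : PSL) (i j : Fin 2) : mat (evl t γ) i j = (pm γ i j).eval t := rfl

lemma evl_cst (t : ℂ) (c : SL) : evl t (cst c) = c := by
  apply Subtype.ext
  ext i j
  change ((C (mat c i j)).eval t) = mat c i j
  exact eval_C

/-- The group of labels. -/
noncomputable def Lab : Subgroup PSL := (evl 0).ker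

instance : (Lab).Normal := MonoidHom.normal_ker _

/-- The action of the constants on the labels. -/
noncomputable def cj : SL →* MulAut Lab := (MulAut.conjNormal (H := Lab)).comp cst

open Classical in
/-- The evaluation of the labels. -/
noncomputable def evu (u : ℝ) : Lab →* SL :=
  if 0 < u then (evl (path u)).comp Lab.subtype else 1

lemma evu_pos {u : ℝ} (hu : 0 < u) (γ : Lab) : evu u γ = evl (path u) γ.1 := by
  unfold evu
  rw [if_pos hu]
  rfl

lemma evu_nonpos {u : ℝ} (hu : u ≤ 0) (γ : Lab) : evu u γ = 1 := by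
  unfold evu
  rw [if_neg (not_lt.2 hu)]
  rfl

lemma evu_conj (u : ℝ) (c : SL) (n : Lab) : evu u (cj c n) = c * evu u n * c⁻¹ := by
  rcases lt_or_ge 0 u with h | h
  · rw [evu_pos h, evu_pos h]
    have h1 : ((cj c n : Lab) : PSL) = cst c * n.1 * (cst c)⁻¹ := by
      change ((MulAut.conjNormal (H := Lab) (cst c)) n : PSL) = _
      exact MulAut.conjNormal_apply _ _
    rw [h1, map_mul, map_mul, map_inv, evl_cst]
  · rw [evu_nonpos h, evu_nonpos h, mul_one, mul_inv_cancel]

lemma isInducing_mat : IsInducing mat := ⟨rfl⟩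

lemma tendsto_SL {ι : Type} {l : Filter ι} {f : ι → SL} {g : SL}
    (h : ∀ i j, Tendsto (fun x => mat (f x) i j) l (𝓝 (mat g i j))) : Tendsto f l (𝓝 g) := by
  rw [isInducing_mat.tendsto_nhds_iff]
  apply tendsto_pi_nhds.2
  intro i
  apply tendsto_pi_nhds.2
  intro j
  exact h i j

lemma continuous_evl (γ : PSL) : Continuous fun t => evl t γ := by
  rw [continuous_iff_continuousAt]
  intro t
  apply tendsto_SL
  intro i j
  simp only [mat_evl]
  exact (pm γ i j).continuous.tendsto t

lemma continuousOn_evu (n : Lab) :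
    ContinuousOn (fun p : ℝ × Herm => evu p.1 n • p.2) (Ioi 0 ×ˢ univ) := by
  have h1 : ContinuousOn (fun p : ℝ × Herm => evl (path p.1) n.1 • p.2) (Ioi 0 ×ˢ univ) := by
    have h2 : ContinuousOn (fun p : ℝ × Herm => (evl (path p.1) n.1, p.2)) (Ioi 0 ×ˢ univ) := by
      apply ContinuousOn.prodMk _ continuousOn_snd
      apply (continuous_evl n.1).comp_continuousOn
      exact continuousOn_path.comp continuousOn_fst fun p hp => hp.1
    have h3 := Continuous.comp_continuousOn (g := fun q : SL × Herm => q.1 • q.2)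
      continuous_smul' h2
    simp only [Function.comp_def] at h3
    exact h3
  apply h1.congr
  rintro p ⟨hp, -⟩
  simp only
  rw [evu_pos hp]

lemma evl_inv_mul (t : ℂ) (γ : PSL) : mat (evl t γ⁻¹) * mat (evl t γ) = 1 := by
  rw [← mat_mul, map_inv, inv_mul_cancel, mat_one]

lemma tendsto_asym (n γ : Lab) {a : ℝ} (ha : 0 < a) :
    Tendsto (fun u : ℝ => (evu u γ)⁻¹ * ((evu a n)⁻¹ * (evu (a + u) n * evu u γ))) (𝓝[>] 0)
      (𝓝 1) := by
  set K : Matrix (Fin 2) (Fin 2) ℂ := mat (evl (path a) n.1⁻¹) with hK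
  let E : ℝ → Matrix (Fin 2) (Fin 2) ℂ := fun u => mat (evl (path u) γ.1⁻¹) * (K *
    ((mat (evl (path (a + u)) n.1) - mat (evl (path a) n.1)) * mat (evl (path u) γ.1)))
  have hE : ∀ i j, Tendsto (fun u => E u i j) (𝓝[>] 0) (𝓝 0) := by
    intro i j
    have h1 : ∀ u, E u i j = ∑ k : Fin 2, ∑ l : Fin 2, ∑ m : Fin 2, K k l *
        ((pm γ.1⁻¹ i k * pm γ.1 m j).eval (path u) *
          ((pm n.1 l m).eval (path (a + u)) - (pm n.1 l m).eval (path a))) := by
      intro u
      simp only [E, Matrix.mul_apply, Finset.mul_sum, Matrix.sub_apply, mat_evl, eval_mul]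
      apply Finset.sum_congr rfl
      intro k _
      apply Finset.sum_congr rfl
      intro l _
      apply Finset.sum_congr rfl
      intro m _
      ring
    simp only [h1]
    have h2 : Tendsto (fun u : ℝ => ∑ k : Fin 2, ∑ l : Fin 2, ∑ m : Fin 2, K k l *
        ((pm γ.1⁻¹ i k * pm γ.1 m j).eval (path u) *
          ((pm n.1 l m).eval (path (a + u)) - (pm n.1 l m).eval (path a)))) (𝓝[>] 0)
        (𝓝 (∑ k : Fin 2, ∑ l : Fin 2, ∑ m : Fin 2, K k l * 0)) := by
      apply tendsto_finsetSum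
      intro k _
      apply tendsto_finsetSum
      intro l _
      apply tendsto_finsetSum
      intro m _
      exact (tendsto_poly ha _ _).const_mul _
    simpa using h2
  apply tendsto_SL
  intro i j
  have h1 : ∀ᶠ u in 𝓝[>] (0 : ℝ), mat (1 : SL) i j + E u i j =
      mat ((evu u γ)⁻¹ * ((evu a n)⁻¹ * (evu (a + u) n * evu u γ))) i j := by
    filter_upwards [self_mem_nhdsWithin] with u hu
    have hu0 : 0 < u := hu
    rw [evu_pos hu0, evu_pos ha, evu_pos (add_pos ha hu0), ← map_inv, ← map_inv]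
    simp only [mat_mul, E]
    have h2 : mat (evl (path u) γ.1⁻¹) * (K *
        ((mat (evl (path (a + u)) n.1) - mat (evl (path a) n.1)) * mat (evl (path u) γ.1))) =
        mat (evl (path u) γ.1⁻¹) * (K * (mat (evl (path (a + u)) n.1) * mat (evl (path u) γ.1))) -
          1 := by
      rw [sub_mul, mul_sub, mul_sub]
      congr 1
      rw [← mul_assoc K, hK, evl_inv_mul, one_mul, evl_inv_mul]
    rw [h2, Matrix.sub_apply, mat_one]
    ring
  refine Tendsto.congr' h1 ?_
  have h2 := (hE i j).const_add (mat (1 : SL) i j)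
  rwa [add_zero] at h2

/-! ### Connectedness of the sphere -/

instance : ConnectedSpace S2 := by
  rw [← isConnected_iff_connectedSpace]
  apply isConnected_sphere _ _ zero_le_one
  rw [← Module.finrank_eq_rank]
  simp

instance : PreconnectedSpace Herm := hermHomeo.symm.surjective.denseRange.preconnectedSpace
  hermHomeo.symm.continuous

lemma exists_ne_of_isOpen {O : Set Herm} (hO : IsOpen O) (hne : O.Nonempty) :
    ∃ x ∈ O, ∃ y ∈ O, x ≠ y := by
  by_contra h
  push Not at h
  obtain ⟨x, hx⟩ := hne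
  have h1 : O = {x} := by
    ext y
    constructor
    · intro hy
      exact h y hy x hx
    · intro hy
      rw [mem_singleton_iff.1 hy]
      exact hx
  have h2 : IsClopen O := ⟨by rw [h1]; exact isClosed_singleton, hO⟩
  rcases isClopen_iff.1 h2 with h3 | h3
  · rw [h3] at hx
    exact hx
  · -- the sphere has two points
    have hv0 : (![1, 0] : Fin 2 → ℂ) ≠ 0 := by
      intro h5
      have := congrFun h5 0
      simp at this
    have hv1 : (![0, 1] : Fin 2 → ℂ) ≠ 0 := by
      intro h5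
      have := congrFun h5 1
      simp at this
    have h4 : pt ![1, 0] hv0 = pt ![0, 1] hv1 := by
      have h5 : pt ![1, 0] hv0 ∈ O := by rw [h3]; exact mem_univ _
      have h6 : pt ![0, 1] hv1 ∈ O := by rw [h3]; exact mem_univ _
      exact h _ h5 _ h6
    have h5 := congrArg (fun H : Herm => H.1 0 0) h4
    have h6 : (pt ![1, 0] hv0).1 0 0 = 1 := by
      change (rk ![1, 0]).trace⁻¹ * rk ![1, 0] 0 0 = 1
      rw [trace_fin_two]
      simp [rk, vecMulVec_apply]
    have h7 : (pt ![0, 1] hv1).1 0 0 = 0 := by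
      change (rk ![0, 1]).trace⁻¹ * rk ![0, 1] 0 0 = 0
      rw [trace_fin_two]
      simp [rk, vecMulVec_apply]
    simp only [h6, h7] at h5
    exact one_ne_zero h5

/-! ### Density -/

lemma root_or_const (r : ℂ[X]) : (∃ t : ℂ, r.eval t = 0) ∨ ∃ c : ℂ, r = C c := by
  rcases lt_or_ge 0 r.degree with h | h
  · left
    obtain ⟨t, ht⟩ := Complex.exists_root h
    exact ⟨t, ht⟩
  · right
    exact ⟨r.coeff 0, eq_C_of_degree_le_zero h⟩

/-- Two polynomials are constant if two independent combinations are constant. -/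
lemma const_of_comb {p q : ℂ[X]} {v w : Fin 2 → ℂ} (h : v 0 * w 1 ≠ v 1 * w 0) {a b : ℂ}
    (h1 : p * C (v 0) + q * C (v 1) = C a) (h2 : p * C (w 0) + q * C (w 1) = C b) :
    (∃ c, p = C c) ∧ ∃ c, q = C c := by
  set D : ℂ := v 0 * w 1 - v 1 * w 0 with hD
  have hD0 : D ≠ 0 := sub_ne_zero.2 h
  have h3 : p * C D = C (a * w 1 - b * v 1) := by
    rw [hD, C_sub, C_mul, C_mul, C_sub, C_mul, C_mul, ← h1, ← h2]
    ring
  have h4 : q * C D = C (b * v 0 - a * w 0) := by
    rw [hD, C_sub, C_mul, C_mul, C_sub, C_mul, C_mul, ← h1, ← h2]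
    ring
  have key : ∀ (p : ℂ[X]) (c : ℂ), p * C D = C c → p = C (c * D⁻¹) := by
    intro p c hp
    rw [C_mul, ← hp, mul_assoc, ← C_mul, mul_inv_cancel₀ hD0, C_1, mul_one]
  exact ⟨⟨_, key p _ h3⟩, ⟨_, key q _ h4⟩⟩

lemma eval_of_const {p : ℂ[X]} (h : ∃ c, p = C c) : p = C (p.eval 0) := by
  obtain ⟨c, rfl⟩ := h
  rw [eval_C]

lemma exists_hit (γ : Lab) (hγ : γ ≠ 1) {O O' : Set Herm} (hO : IsOpen O) (hO' : IsOpen O')
    (hne : O.Nonempty) (hne' : O'.Nonempty) : ∃ t : ℂ, ∃ x ∈ O, evl t γ.1 • x ∈ O' := by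
  -- a vector which is moved
  have step1 : ∃ (v : Fin 2 → ℂ) (hv : v ≠ 0), pt v hv ∈ O ∧
      ¬ ∀ i, ∃ c, pm γ.1 i 0 * C (v 0) + pm γ.1 i 1 * C (v 1) = C c := by
    by_contra h
    push Not at h
    obtain ⟨x, hx, y, hy, hxy⟩ := exists_ne_of_isOpen hO hne
    obtain ⟨v, hv, rfl⟩ := exists_pt x
    obtain ⟨w, hw, rfl⟩ := exists_pt y
    have hvw : v 0 * w 1 ≠ v 1 * w 0 := fun h' => hxy (pt_eq hv hw h')
    have h1 := h v hv hx
    have h2 := h w hw hy
    have h3 : ∀ i, (∃ c, pm γ.1 i 0 = C c) ∧ ∃ c, pm γ.1 i 1 = C c := by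
      intro i
      obtain ⟨a, ha⟩ := h1 i
      obtain ⟨b, hb⟩ := h2 i
      exact const_of_comb hvw ha hb
    have h4 : ∀ i j, pm γ.1 i j = C ((pm γ.1 i j).eval 0) := by
      intro i j
      apply eval_of_const
      fin_cases j
      · exact (h3 i).1
      · exact (h3 i).2
    have h5 : evl 0 γ.1 = 1 := γ.2
    apply hγ
    apply Subtype.ext
    apply Subtype.ext
    ext1 i j
    change pm γ.1 i j = (1 : Matrix (Fin 2) (Fin 2) ℂ[X]) i j
    rw [h4 i j, ← mat_evl, h5, mat_one, Matrix.one_apply, Matrix.one_apply]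
    split_ifs
    · exact C_1
    · exact C_0
  obtain ⟨v, hv, hvO, hvc⟩ := step1
  let q : Fin 2 → ℂ[X] := fun i => pm γ.1 i 0 * C (v 0) + pm γ.1 i 1 * C (v 1)
  have hq : ∀ t, mat (evl t γ.1) *ᵥ v = fun i => (q i).eval t := by
    intro t
    funext i
    simp [q, mulVec, dotProduct, Fin.sum_univ_two, mat_evl]
  -- a target vector which is hit
  have step2 : ∃ (w : Fin 2 → ℂ) (hw : w ≠ 0) (t : ℂ), pt w hw ∈ O' ∧
      (q 0).eval t * w 1 = (q 1).eval t * w 0 := by
    obtain ⟨x, hx, y, hy, hxy⟩ := exists_ne_of_isOpen hO' hne'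
    obtain ⟨w, hw, rfl⟩ := exists_pt x
    obtain ⟨w', hw', rfl⟩ := exists_pt y
    have hww : w 0 * w' 1 ≠ w 1 * w' 0 := fun h' => hxy (pt_eq hw hw' h')
    rcases root_or_const (q 0 * C (w 1) + q 1 * C (-w 0)) with ⟨t, ht⟩ | ⟨c, hc⟩
    · refine ⟨w, hw, t, hx, ?_⟩
      simp only [eval_add, eval_mul, eval_C] at ht
      linear_combination ht
    · rcases root_or_const (q 0 * C (w' 1) + q 1 * C (-w' 0)) with ⟨t, ht⟩ | ⟨c', hc'⟩
      · refine ⟨w', hw', t, hy, ?_⟩
        simp only [eval_add, eval_mul, eval_C] at ht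
        linear_combination ht
      · exfalso
        apply hvc
        have h1 := const_of_comb (p := q 0) (q := q 1) (v := ![w 1, -w 0]) (w := ![w' 1, -w' 0])
          (by
            simp only [cons_val_zero, cons_val_one]
            intro h
            apply hww
            linear_combination h) hc hc'
        intro i
        fin_cases i
        · exact h1.1
        · exact h1.2
  obtain ⟨w, hw, t, hwO, ht⟩ := step2
  refine ⟨t, pt v hv, hvO, ?_⟩
  rw [smul_pt]
  have h1 : pt (mat (evl t γ.1) *ᵥ v) (mulVec_ne_zero' _ hv) = pt w hw := by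
    apply pt_eq
    rw [hq t]
    exact ht
  rw [h1]
  exact hwO

lemma continuous_const_smul' (c : SL) : Continuous fun x : Herm => c • x := by
  have h := Continuous.comp (g := fun q : SL × Herm => q.1 • q.2) continuous_smul'
    (by fun_prop : Continuous fun x : Herm => (c, x))
  simp only [Function.comp_def] at h
  exact h

lemma continuous_evl_smul (γ : PSL) (x : Herm) : Continuous fun t => evl t γ • x := by
  have h := Continuous.comp (g := fun q : SL × Herm => q.1 • q.2) continuous_smul'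
    ((continuous_evl γ).prodMk (continuous_const (y := x)))
  simp only [Function.comp_def] at h
  exact h

/-- The system. -/
noncomputable def sys : Sys SL Lab Herm where
  conj := cj
  ev := evu
  ev_conj := evu_conj
  ev_nonpos := fun _ hu n => evu_nonpos hu n
  cont := continuousOn_evu
  cont_smul := continuous_const_smul'
  asym := by
    intro n γ a ha x
    have h1 := (tendsto_asym n γ ha).comp (tendsto_fst (f := 𝓝[>] (0 : ℝ)) (g := 𝓝 x))
    have h2 := h1.prodMk_nhds (tendsto_snd (f := 𝓝[>] (0 : ℝ)) (g := 𝓝 x))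
    have h3 := Tendsto.comp (g := fun q : SL × Herm => q.1 • q.2)
      (continuous_smul'.tendsto (1, x)) h2
    simp only [one_smul] at h3
    exact h3
  cluster := by
    intro γ hγ O O' hO hO' hne hne'
    obtain ⟨t, x, hx, htx⟩ := exists_hit γ hγ hO hO' hne hne'
    have h1 : Continuous fun t => evl t γ.1 • x := continuous_evl_smul γ.1 x
    have h2 := frequently_path _ (hO'.preimage h1) ⟨t, htx⟩
    refine (h2.and_eventually self_mem_nhdsWithin).mono ?_
    rintro u ⟨hu1, hu2⟩
    exact ⟨x, hx, by rw [evu_pos hu2]; exact hu1⟩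
  trans := exists_smul_eq

lemma exists_label : ∃ γ : Lab, γ ≠ 1 := by
  let g : PSL := ⟨!![1, X; 0, 1], by
    rw [det_fin_two_of]
    ring⟩
  have hg : g ∈ Lab := by
    change evl 0 g = 1
    apply Subtype.ext
    ext1 i j
    change (pm g i j).eval 0 = (1 : Matrix (Fin 2) (Fin 2) ℂ) i j
    have h1 : pm g = !![1, X; 0, 1] := rfl
    rw [h1]
    fin_cases i <;> fin_cases j <;> simp
  refine ⟨⟨g, hg⟩, fun h => ?_⟩
  have h1 : g = 1 := congrArg Subtype.val h
  have h2 := congrArg (fun g : PSL => pm g 0 1) h1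
  have h3 : pm g 0 1 = X := rfl
  have h4 : pm (1 : PSL) 0 1 = 0 := rfl
  simp only [h3, h4] at h2
  exact X_ne_zero h2

/-- A homogeneous non-Hausdorff three-manifold whose non-separated sets are topological sums of
two-spheres. -/
theorem sphere_case : ∃ (M : Type) (_ : TopologicalSpace M), Q178.HNH.IsHNH 3 M ∧
    ∀ z : M, ∃ ι : Type, Nonempty ι ∧
      Nonempty (Q178.HNH.NH z ≃ₜ Σ _ : ι, Metric.sphere (0 : EuclideanSpace ℝ (Fin 3)) 1) := by
  have hfact : Fact (Module.finrank ℝ (EuclideanSpace ℝ (Fin 3)) = 2 + 1) := ⟨by simp⟩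
  obtain ⟨p⟩ : Nonempty S2 := (inferInstance : ConnectedSpace S2).toNonempty
  have e1 : ({p}ᶜ : Set S2) ≃ₜ EuclideanSpace ℝ (Fin 2) := by
    have e := (stereographic' 2 p).toHomeomorphSourceTarget
    have h1 : (stereographic' 2 p).source = {p}ᶜ := stereographic'_source p
    have h2 : (stereographic' 2 p).target = univ := stereographic'_target p
    exact (Homeomorph.setCongr h1.symm).trans (e.trans
      ((Homeomorph.setCongr h2).trans (Homeomorph.Set.univ _)))
  let V : Set Herm := hermHomeo ⁻¹' {p}ᶜ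
  have e2 : V ≃ₜ ({p}ᶜ : Set S2) := hermHomeo.sets rfl
  have e3 : Nonempty ((ℝ × EuclideanSpace ℝ (Fin 2)) ≃ₜ EuclideanSpace ℝ (Fin 3)) := by
    obtain ⟨e⟩ := FiniteDimensional.nonempty_continuousLinearEquiv_of_finrank_eq (𝕜 := ℝ)
      (E := ℝ × EuclideanSpace ℝ (Fin 2)) (F := EuclideanSpace ℝ (Fin 3)) (by simp)
    exact ⟨e.toHomeomorph⟩
  obtain ⟨e3⟩ := e3
  have hV : IsOpen V := isOpen_compl_singleton.preimage hermHomeo.continuous
  obtain ⟨x0, hx0⟩ : V.Nonempty := by
    refine ⟨hermHomeo.symm (-p), ?_⟩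
    change hermHomeo (hermHomeo.symm (-p)) ∈ ({p}ᶜ : Set S2)
    rw [Homeomorph.apply_symm_apply]
    intro h
    have h1 : (-p : S2) = p := h
    exact (ne_neg_of_mem_unit_sphere ℝ p) h1.symm
  obtain ⟨M, hM, h1, h2⟩ := main sys exists_label 3 V hV x0 hx0
    ⟨((Homeomorph.refl ℝ).prodCongr (e2.trans e1)).trans e3⟩
  refine ⟨M, hM, h1, fun z => ?_⟩
  obtain ⟨ι, hι, ⟨e⟩⟩ := h2 z
  refine ⟨ι, hι, ⟨e.trans ?_⟩⟩
  exact
    { toEquiv := Equiv.sigmaCongrRight fun _ => hermHomeo.toEquiv
      continuous_toFun := by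
        apply continuous_sigma
        intro i
        exact continuous_sigmaMk.comp hermHomeo.continuous
      continuous_invFun := by
        apply continuous_sigma
        intro i
        exact continuous_sigmaMk.comp hermHomeo.symm.continuous }

end Q178.HNS
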