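import Pool.Agent.Q178.HNH.Defs

set_option autoImplicit false
set_option linter.unusedSectionVars false
set_option linter.unusedVariables false

/-!
A homogeneous non-Hausdorff manifold built from a group of oscillating paths.
-/

namespace Q178.HNS

open Set Filter Topology

/-- The data of the construction: a group `G` acting transitively on a space `X`, a group `L` of
labels on which `G` acts, and evaluations of the labels at positive real numbers. -/
structure Sys (G L X : Type) [Group G] [Group L] [TopologicalSpace X] [MulAction G X] where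
  /-- the action of the constants on the labels -/
  conj : G →* MulAut L
  /-- evaluation of the labels -/
  ev : ℝ → L →* G
  ev_conj : ∀ u c n, ev u (conj c n) = c * ev u n * c⁻¹
  ev_nonpos : ∀ u, u ≤ 0 → ∀ n, ev u n = 1
  cont : ∀ n, ContinuousOn (fun p : ℝ × X => ev p.1 n • p.2) (Ioi 0 ×ˢ univ)
  cont_smul : ∀ c : G, Continuous fun x : X => c • x
  asym : ∀ (n γ : L) (a : ℝ), 0 < a → ∀ x : X,
    Tendsto (fun p : ℝ × X => ((ev p.1 γ)⁻¹ * ((ev a n)⁻¹ * (ev (a + p.1) n * ev p.1 γ))) • p.2)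
      (𝓝[>] 0 ×ˢ 𝓝 x) (𝓝 x)
  cluster : ∀ γ : L, γ ≠ 1 → ∀ O O' : Set X, IsOpen O → IsOpen O' → O.Nonempty → O'.Nonempty →
    ∃ᶠ u in 𝓝[>] 0, ∃ x ∈ O, ev u γ • x ∈ O'
  trans : ∀ x y : X, ∃ c : G, c • x = y

variable {G L X : Type} [Group G] [Group L] [TopologicalSpace X] [MulAction G X]

/-- The points of the manifold. -/
structure Pt (S : Sys G L X) : Type where
  /-- the height -/
  s : ℝ
  /-- the labels -/
  A : ℝ → L
  /-- the coordinate -/
  x : X
  fin : (Function.mulSupport A).Finite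
  le : ∀ a, a < s → A a = 1

variable {S : Sys G L X}

lemma Pt.ext' {z w : Pt S} (h1 : z.s = w.s) (h2 : z.A = w.A) (h3 : z.x = w.x) : z = w := by
  cases z
  cases w
  simp only at h1 h2 h3
  subst h1 h2 h3
  rfl

open Classical in
/-- Cutting off the labels below a height. -/
noncomputable def cut (t : ℝ) (A : ℝ → L) (a : ℝ) : L := if t ≤ a then A a else 1

lemma cut_of_le {t a : ℝ} (h : t ≤ a) (A : ℝ → L) : cut t A a = A a := if_pos h

lemma cut_of_lt {t a : ℝ} (h : a < t) (A : ℝ → L) : cut t A a = 1 := if_neg (not_le.2 h)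

lemma mulSupport_cut (t : ℝ) (A : ℝ → L) :
    Function.mulSupport (cut t A) ⊆ Function.mulSupport A := by
  intro a ha h
  apply ha
  unfold cut
  split_ifs
  · exact h
  · rfl

lemma cut_eq_self {t : ℝ} {A : ℝ → L} (h : ∀ a, a < t → A a = 1) : cut t A = A := by
  funext a
  unfold cut
  split_ifs with h1
  · rfl
  · exact (h a (not_le.1 h1)).symm

/-- The chart at a point. -/
noncomputable def chart (z : Pt S) (p : ℝ × X) : Pt S where
  s := p.1
  A := cut p.1 z.A
  x := S.ev (p.1 - z.s) (z.A z.s) • p.2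
  fin := z.fin.subset (mulSupport_cut _ _)
  le := fun _ ha => cut_of_lt ha _

/-- The heights on which a chart is used. -/
def dom (z : Pt S) : Set ℝ := {t | ∀ a, z.s < a → z.A a ≠ 1 → t < a}

lemma isOpen_dom (z : Pt S) : IsOpen (dom z) := by
  have h : dom z = ⋂ a ∈ {a | a ∈ Function.mulSupport z.A ∧ z.s < a}, Iio a := by
    ext t
    simp only [dom, mem_ofPred_eq, mem_iInter, mem_Iio, Function.mem_mulSupport]
    exact ⟨fun h a ha => h a ha.2 ha.1, fun h a ha hb => h a ⟨hb, ha⟩⟩
  rw [h]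
  exact (z.fin.subset fun a ha => ha.1).isOpen_biInter fun a _ => isOpen_Iio

lemma self_mem_dom (z : Pt S) : z.s ∈ dom z := fun _ ha _ => ha

lemma mem_dom_of_le {z : Pt S} {t t' : ℝ} (h : t ∈ dom z) (h' : t' ≤ t) : t' ∈ dom z :=
  fun a ha hb => h'.trans_lt (h a ha hb)

lemma chart_self (z : Pt S) : chart z (z.s, z.x) = z := by
  apply Pt.ext'
  · rfl
  · exact cut_eq_self z.le
  · change S.ev (z.s - z.s) (z.A z.s) • z.x = z.x
    rw [S.ev_nonpos _ (by simp), one_smul]

lemma chart_injective (z : Pt S) : Function.Injective (chart z) := by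
  rintro ⟨t, x⟩ ⟨t', x'⟩ h
  have h1 : t = t' := congrArg Pt.s h
  subst h1
  have h2 : S.ev (t - z.s) (z.A z.s) • x = S.ev (t - z.s) (z.A z.s) • x' := congrArg Pt.x h
  rw [smul_left_cancel _ h2]

instance : TopologicalSpace (Pt S) where
  IsOpen U := ∀ z : Pt S, IsOpen {p : ℝ × X | p.1 ∈ dom z ∧ chart z p ∈ U}
  isOpen_univ z := by
    have : {p : ℝ × X | p.1 ∈ dom z ∧ chart z p ∈ univ} = Prod.fst ⁻¹' dom z := by
      ext p
      simp
    rw [this]
    exact (isOpen_dom z).preimage continuous_fst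
  isOpen_inter U V hU hV z := by
    have : {p : ℝ × X | p.1 ∈ dom z ∧ chart z p ∈ U ∩ V} =
        {p : ℝ × X | p.1 ∈ dom z ∧ chart z p ∈ U} ∩
          {p : ℝ × X | p.1 ∈ dom z ∧ chart z p ∈ V} := by
      ext p
      simp only [mem_ofPred_eq, mem_inter_iff]
      tauto
    rw [this]
    exact (hU z).inter (hV z)
  isOpen_sUnion T hT z := by
    have : {p : ℝ × X | p.1 ∈ dom z ∧ chart z p ∈ ⋃₀ T} =
        ⋃ U ∈ T, {p : ℝ × X | p.1 ∈ dom z ∧ chart z p ∈ U} := by
      ext p
      simp only [mem_ofPred_eq, mem_sUnion, mem_iUnion, exists_prop]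
      constructor
      · rintro ⟨h, U, hU, hp⟩
        exact ⟨U, hU, h, hp⟩
      · rintro ⟨U, hU, h, hp⟩
        exact ⟨h, U, hU, hp⟩
    rw [this]
    exact isOpen_biUnion fun U hU => hT U hU z

lemma isOpen_iff {U : Set (Pt S)} :
    IsOpen U ↔ ∀ z : Pt S, IsOpen {p : ℝ × X | p.1 ∈ dom z ∧ chart z p ∈ U} := Iff.rfl

lemma continuousOn_chart (z : Pt S) : ContinuousOn (chart z) {p | p.1 ∈ dom z} := by
  have hD : IsOpen {p : ℝ × X | p.1 ∈ dom z} := (isOpen_dom z).preimage continuous_fst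
  rw [continuousOn_open_iff hD]
  intro U hU
  exact isOpen_iff.1 hU z

/-- Joint continuity of the evaluations away from the critical height. -/
lemma continuousOn_ev (n : L) (t0 : ℝ) :
    ContinuousOn (fun p : ℝ × X => S.ev (p.1 - t0) n • p.2) {p | p.1 ≠ t0} := by
  intro p hp
  apply ContinuousAt.continuousWithinAt
  rcases lt_or_gt_of_ne hp with h | h
  · have h1 : ∀ᶠ q : ℝ × X in 𝓝 p, q.1 < t0 :=
      continuous_fst.continuousAt.eventually (gt_mem_nhds h)
    have h2 : (fun q : ℝ × X => q.2) =ᶠ[𝓝 p] fun q : ℝ × X => S.ev (q.1 - t0) n • q.2 := by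
      filter_upwards [h1] with q hq
      rw [S.ev_nonpos _ (by linarith), one_smul]
    exact (continuousAt_snd).congr h2
  · have h1 : ContinuousAt (fun p : ℝ × X => S.ev p.1 n • p.2) (p.1 - t0, p.2) := by
      apply (S.cont n).continuousAt
      apply (isOpen_Ioi.prod isOpen_univ).mem_nhds
      exact ⟨sub_pos.2 h, mem_univ _⟩
    have h2 : ContinuousAt (fun q : ℝ × X => (q.1 - t0, q.2)) p := by fun_prop
    exact ContinuousAt.comp (g := fun p : ℝ × X => S.ev p.1 n • p.2)
      (f := fun q : ℝ × X => (q.1 - t0, q.2)) (x := p) h1 h2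

lemma continuousOn_ev_inv (n : L) (t0 : ℝ) :
    ContinuousOn (fun p : ℝ × X => (S.ev (p.1 - t0) n)⁻¹ • p.2) {p | p.1 ≠ t0} := by
  have := continuousOn_ev (S := S) n⁻¹ t0
  simpa only [map_inv] using this

/-- Charts are open. -/
lemma isOpen_image_chart (z : Pt S) {O : Set (ℝ × X)} (hO : IsOpen O)
    (hOD : ∀ p ∈ O, p.1 ∈ dom z) : IsOpen (chart z '' O) := by
  rw [isOpen_iff]
  intro w
  -- the heights at which both charts coincide
  let V : Set ℝ := {t | t ∈ dom w ∧ t ∈ dom z ∧ ∀ a, w.A a ≠ z.A a → a < t}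
  have hV : IsOpen V := by
    have h1 : V = dom w ∩ (dom z ∩
        ⋂ a ∈ {a | (a ∈ Function.mulSupport w.A ∪ Function.mulSupport z.A) ∧ w.A a ≠ z.A a},
          Ioi a) := by
      ext t
      simp only [V, mem_ofPred_eq, mem_inter_iff, mem_iInter, mem_Ioi]
      constructor
      · rintro ⟨h1, h2, h3⟩
        exact ⟨h1, h2, fun a ha => h3 a ha.2⟩
      · rintro ⟨h1, h2, h3⟩
        refine ⟨h1, h2, fun a ha => h3 a ⟨?_, ha⟩⟩
        by_contra h
        rw [mem_union, not_or, Function.notMem_mulSupport, Function.notMem_mulSupport] at h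
        exact ha (h.1.trans h.2.symm)
    rw [h1]
    exact (isOpen_dom w).inter ((isOpen_dom z).inter
      (((w.fin.union z.fin).subset fun a ha => ha.1).isOpen_biInter fun a _ => isOpen_Ioi))
  -- the transition function
  let tr : ℝ × X → ℝ × X := fun p =>
    (p.1, (S.ev (p.1 - z.s) (z.A z.s))⁻¹ • S.ev (p.1 - w.s) (w.A w.s) • p.2)
  have hset : {p : ℝ × X | p.1 ∈ dom w ∧ chart w p ∈ chart z '' O} =
      {p | p.1 ∈ V} ∩ tr ⁻¹' O := by
    ext p
    constructor
    · rintro ⟨hp, q, hq, hqp⟩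
      have h1 : q.1 = p.1 := congrArg Pt.s hqp
      have h2 : cut q.1 z.A = cut p.1 w.A := congrArg Pt.A hqp
      have h3 : S.ev (q.1 - z.s) (z.A z.s) • q.2 = S.ev (p.1 - w.s) (w.A w.s) • p.2 :=
        congrArg Pt.x hqp
      rw [h1] at h2 h3
      refine ⟨⟨hp, h1 ▸ hOD q hq, fun a ha => ?_⟩, ?_⟩
      · by_contra hle
        rw [not_lt] at hle
        have h4 := congrFun h2 a
        rw [cut_of_le hle, cut_of_le hle] at h4
        exact ha h4.symm
      · have h4 : tr p = q := by
          apply Prod.ext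
          · exact h1.symm
          · change (S.ev (p.1 - z.s) (z.A z.s))⁻¹ • S.ev (p.1 - w.s) (w.A w.s) • p.2 = q.2
            rw [← h3, inv_smul_smul]
        change tr p ∈ O
        rw [h4]
        exact hq
    · rintro ⟨⟨h1, h2, h3⟩, h4⟩
      refine ⟨h1, tr p, h4, ?_⟩
      apply Pt.ext'
      · rfl
      · change cut p.1 z.A = cut p.1 w.A
        funext a
        unfold cut
        split_ifs with h5
        · by_contra h6
          exact absurd (h3 a fun h7 => h6 h7.symm) (not_lt.2 h5)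
        · rfl
      · change S.ev (p.1 - z.s) (z.A z.s) • (S.ev (p.1 - z.s) (z.A z.s))⁻¹ •
          S.ev (p.1 - w.s) (w.A w.s) • p.2 = S.ev (p.1 - w.s) (w.A w.s) • p.2
        rw [smul_inv_smul]
  rw [hset]
  have hVX : IsOpen {p : ℝ × X | p.1 ∈ V} := hV.preimage continuous_fst
  suffices hcont : ContinuousOn tr {p : ℝ × X | p.1 ∈ V} from hcont.isOpen_inter_preimage hVX hO
  by_cases hwz : w.s = z.s ∧ w.A w.s = z.A z.s
  · have h1 : tr = id := by
      funext p
      apply Prod.ext
      · rfl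
      · change (S.ev (p.1 - z.s) (z.A z.s))⁻¹ • S.ev (p.1 - w.s) (w.A w.s) • p.2 = p.2
        rw [hwz.1, ← hwz.2, hwz.1, inv_smul_smul]
    rw [h1]
    exact continuousOn_id
  · -- away from the critical heights
    have key : ∀ (w z : Pt S), (∀ t ∈ V, t ∈ dom w ∧ t ∈ dom z ∧ ∀ a, w.A a ≠ z.A a → a < t) →
        ¬ (w.s = z.s ∧ w.A w.s = z.A z.s) → w.s ∈ V → w.A w.s = 1 := by
      intro w z hV' hne hws
      by_contra h1
      obtain ⟨-, h2, h3⟩ := hV' _ hws
      have h4 : w.A w.s = z.A w.s := by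
        by_contra h5
        exact lt_irrefl _ (h3 _ h5)
      have h5 : z.s ≤ w.s := by
        by_contra h6
        rw [not_le] at h6
        exact h1 (h4.trans (z.le _ h6))
      rcases h5.lt_or_eq with h6 | h6
      · exact lt_irrefl _ (h2 _ h6 (h4 ▸ h1))
      · exact hne ⟨h6.symm, by rw [h4, h6]⟩
    have hw : ContinuousOn (fun p : ℝ × X => S.ev (p.1 - w.s) (w.A w.s) • p.2)
        {p | p.1 ∈ V} := by
      by_cases h1 : w.A w.s = 1
      · rw [h1]
        simp only [map_one, one_smul]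
        exact continuousOn_snd
      · apply (continuousOn_ev (w.A w.s) w.s).mono
        rintro p hp h2
        have hp' : p.1 ∈ V := hp
        rw [h2] at hp'
        exact h1 (key w z (fun t ht => ht) hwz hp')
    have hz : ContinuousOn (fun p : ℝ × X => (S.ev (p.1 - z.s) (z.A z.s))⁻¹ • p.2)
        {p | p.1 ∈ V} := by
      by_cases h1 : z.A z.s = 1
      · rw [h1]
        simp only [map_one, inv_one, one_smul]
        exact continuousOn_snd
      · apply (continuousOn_ev_inv (z.A z.s) z.s).mono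
        rintro p hp h2
        have hp' : p.1 ∈ V := hp
        rw [h2] at hp'
        refine h1 (key z w (fun t ht => ⟨ht.2.1, ht.1, fun a ha => ht.2.2 a fun h => ha h.symm⟩)
          (fun h => hwz ⟨h.1.symm, h.2.symm⟩) hp')
    have h1 : tr = fun p => (p.1, (fun q : ℝ × X => (S.ev (q.1 - z.s) (z.A z.s))⁻¹ • q.2)
        (p.1, S.ev (p.1 - w.s) (w.A w.s) • p.2)) := rfl
    rw [h1]
    apply ContinuousOn.prodMk continuousOn_fst
    exact hz.comp (continuousOn_fst.prodMk hw) fun p hp => hp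

lemma map_chart_nhds (z : Pt S) {p : ℝ × X} (hp : p.1 ∈ dom z) :
    map (chart z) (𝓝 p) = 𝓝 (chart z p) := by
  have hD : IsOpen {p : ℝ × X | p.1 ∈ dom z} := (isOpen_dom z).preimage continuous_fst
  apply le_antisymm
  · exact (continuousOn_chart z).continuousAt (hD.mem_nhds hp)
  · intro U hU
    rw [mem_map] at hU
    obtain ⟨O, hO1, hO2, hO3⟩ := mem_nhds_iff.1 (inter_mem hU (hD.mem_nhds hp))
    refine mem_nhds_iff.2 ⟨chart z '' O, ?_, isOpen_image_chart z hO2 fun q hq => (hO1 hq).2,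
      mem_image_of_mem _ hO3⟩
    rintro _ ⟨q, hq, rfl⟩
    exact (hO1 hq).1

lemma nhds_eq (z : Pt S) : 𝓝 z = map (chart z) (𝓝 (z.s, z.x)) := by
  rw [map_chart_nhds z (self_mem_dom z), chart_self]

/-- A criterion for continuity at a point. -/
lemma continuousAt_of {f : Pt S → Pt S} (z : Pt S) (h : ℝ × X → ℝ × X)
    (hh : Tendsto h (𝓝 (z.s, z.x)) (𝓝 ((f z).s, (f z).x)))
    (heq : ∀ᶠ p in 𝓝 (z.s, z.x), f (chart z p) = chart (f z) (h p)) : ContinuousAt f z := by
  rw [ContinuousAt, nhds_eq z, nhds_eq (f z), tendsto_map'_iff]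
  refine (tendsto_map.comp hh).congr' ?_
  filter_upwards [heq] with p hp
  exact hp.symm

lemma continuous_s : Continuous (Pt.s : Pt S → ℝ) := by
  rw [continuous_iff_continuousAt]
  intro z
  rw [ContinuousAt, nhds_eq z, tendsto_map'_iff]
  exact continuous_fst.tendsto _

end Q178.HNS
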